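import Pool.Agent.N636.BW.Hier

/-!
The model is countably saturated, and satisfies `Sigma^1_1-AC_0`.
-/

set_option autoImplicit false

namespace Pool.Agent.N636.BW

open Encodable Filter Pool.Agent.Helper617.RM Pool.Agent.Y579.HR

/-- countable saturation -/
theorem saturation (Q : ℕ → ℕ → ℕ → Prop)
    (h : ∀ l, ∀ᶠ F in (D : Filter ℕ), ∃ y, ∀ j ≤ l, Q j F y) :
    ∃ m : MM, ∀ l, ∀ᶠ F in (D : Filter ℕ), Q l F (rep m F) := by
  classical
  have key : ∀ F : ℕ, ∃ y, ∀ l ≤ F, (∃ y', ∀ j ≤ l, Q j F y') → Q l F y := by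
    intro F
    by_cases hex : ∃ l ≤ F, ∃ y', ∀ j ≤ l, Q j F y'
    · have hne : (Finset.filter (fun l => ∃ y', ∀ j ≤ l, Q j F y') (Finset.range (F + 1))).Nonempty := by
        obtain ⟨l, hl, hl'⟩ := hex
        exact ⟨l, by rw [Finset.mem_filter, Finset.mem_range]; exact ⟨by omega, hl'⟩⟩
      have hmem := Finset.max'_mem _ hne
      rw [Finset.mem_filter] at hmem
      obtain ⟨y, hy⟩ := hmem.2
      refine ⟨y, fun l hl hl' => hy l (Finset.le_max' _ _ ?_)⟩
      rw [Finset.mem_filter, Finset.mem_range]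
      exact ⟨by omega, hl'⟩
    · exact ⟨0, fun l hl hl' => absurd ⟨l, hl, hl'⟩ hex⟩
  choose f hf using key
  refine ⟨mk f, fun l => ?_⟩
  filter_upwards [h l, ev_ge l, rep_mk f] with F h1 h2 h3
  rw [h3]
  exact hf F l h2 h1

/-- substitution of variables in terms -/
theorem Rt.term' (t : Term NN) : ∀ g : ℕ → ℕ, Rt (fun v => t.val (fun i => v (g i))) := by
  intro g
  induction t with
  | var i => exact Rt.var (g i)
  | const a => exact Rt.const a
  | zero => exact Rt.const NN.zero
  | one => exact Rt.const NN.one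
  | add s t hs ht => exact hs.add ht
  | mul s t hs ht => exact hs.mul ht

theorem holds_rp {Y : Set MM} (hY : Y ∈ NN.Sets) (φ : SForm NN) : ∀ (g : ℕ → ℕ) (k : ℕ),
    Rp (fun v => φ.Holds (fun _ => sec NN Y (v k)) (fun i => v (g i))) := by
  induction φ with
  | eq s t => exact fun g _ => Rp.eq (Rt.term' s g) (Rt.term' t g)
  | lt s t => exact fun g _ => Rp.lt (Rt.term' s g) (Rt.term' t g)
  | mem t X => exact fun g _ => Rp.mem X.2 (Rt.term' t g)
  | memV t i => exact fun g k => Rp.mem hY ((Rt.var k).pair (Rt.term' t g))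
  | neg φ ih => exact fun g k => (ih g k).not
  | and φ ψ ih1 ih2 => exact fun g k => (ih1 g k).and (ih2 g k)
  | all φ ih =>
    intro g k
    refine ((ih (fun i => Nat.rec 0 (fun j _ => g j + 1) i) (k + 1)).all).congr fun v => ?_
    show (∀ a, _) ↔ _
    refine forall_congr' fun a => ?_
    have e : (fun i => cons a v (Nat.rec 0 (fun j _ => g j + 1) i)) =
        cons a (fun i => v (g i)) := by
      funext i
      cases i with
      | zero => rfl
      | succ i => rfl
    rw [e]
    exact Iff.rfl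

/-- a set of the model is a section of a stage of the hierarchy -/
theorem exists_sec {X : Set MM} (hX : X ∈ NN.Sets) : ∃ l, ∃ e, X = sec NN (star (U l)) e := by
  obtain ⟨A, ⟨j, e, he⟩, p, rfl⟩ := hX
  refine ⟨j + 1, NN.pair (ι 5) (NN.pair (ι e) p), ?_⟩
  ext z
  rw [Set.mem_ofPred_eq]
  change _ ↔ NN.pair (NN.pair (ι 5) (NN.pair (ι e) p)) z ∈ star (U (j + 1))
  rw [pair_mem_star]
  apply Filter.eventually_congr
  filter_upwards [rep_pair (ι 5) (NN.pair (ι e) p), rep_pair (ι e) p, rep_ι 5, rep_ι e]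
    with F h1 h2 h3 h4
  rw [h1, h2, h3, h4, he]
  change _ ↔ _ ∈ J (U j)
  rw [mem_J]
  simp

/-- the stages of the hierarchy are increasing -/
theorem sec_lift (l : ℕ) (e : MM) : ∃ e', sec NN (star (U l)) e = sec NN (star (U (l + 1))) e' := by
  refine ⟨NN.pair (ι 1) (NN.pair e e), ?_⟩
  ext z
  change NN.pair e z ∈ star (U l) ↔ NN.pair (NN.pair (ι 1) (NN.pair e e)) z ∈ star (U (l + 1))
  rw [pair_mem_star, pair_mem_star]
  apply Filter.eventually_congr
  filter_upwards [rep_pair (ι 1) (NN.pair e e), rep_pair e e, rep_ι 1] with F h1 h2 h3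
  rw [h1, h2, h3]
  change _ ↔ _ ∈ J (U l)
  rw [mem_J]
  simp

theorem sec_lift_le {j l : ℕ} (h : j ≤ l) (e : MM) :
    ∃ e', sec NN (star (U j)) e = sec NN (star (U l)) e' := by
  induction l, h using Nat.le_induction with
  | base => exact ⟨e, rfl⟩
  | succ l hl ih =>
    obtain ⟨e', he'⟩ := ih
    obtain ⟨e'', he''⟩ := sec_lift l e'
    exact ⟨e'', he'.trans he''⟩

theorem sec_mem {Y : Set MM} (hY : Y ∈ NN.Sets) (n : MM) : sec NN Y n ∈ NN.Sets :=
  (Rp.mem hY (t := fun v => NN.pair n (v 0)) ((Rt.const n).pair (Rt.var 0))).comp (fun _ => pt)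

/-- witnesses may be found at one stage of the hierarchy -/
theorem uniform_stage (φ : SForm NN) (v : ℕ → MM)
    (h : ∀ n, ∃ X ∈ NN.Sets, φ.Holds (fun _ => X) (cons n v)) :
    ∃ l, ∀ n, ∃ e, φ.Holds (fun _ => sec NN (star (U l)) e) (cons n v) := by
  by_contra hno
  push Not at hno
  have hR : ∀ l, Rp (fun w => ¬ ∃ e, φ.Holds (fun _ => sec NN (star (U l)) e) w) := fun l =>
    ((holds_rp (star_mem (Ar.stage l)) φ (fun i => i + 1) 0).ex.congr fun v => Iff.rfl).not
  choose P hP p hp using hR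
  have hst : ∀ l n, (¬ ∃ e, φ.Holds (fun _ => sec NN (star (U l)) e) (cons n v)) ↔
      ∀ᶠ F in (D : Filter ℕ), P l (cons (rep (p l) F) (cons (rep n F) (fun i => rep (v i) F))) := by
    intro l n
    refine (hp l (cons n v)).trans ?_
    unfold st
    apply Filter.eventually_congr
    refine Filter.Eventually.of_forall fun F => ?_
    rw [cons_rep, cons_rep]
  obtain ⟨m, hm⟩ := saturation (fun l F y =>
    P l (cons (rep (p l) F) (cons y (fun i => rep (v i) F)))) (by
      intro l
      obtain ⟨n, hn⟩ := hno l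
      have h1 : ∀ j ∈ Finset.range (l + 1), ∀ᶠ F in (D : Filter ℕ),
          P j (cons (rep (p j) F) (cons (rep n F) (fun i => rep (v i) F))) := by
        intro j hj
        rw [← hst j n]
        rintro ⟨e, he⟩
        obtain ⟨e', he'⟩ := sec_lift_le (Nat.lt_succ_iff.1 (Finset.mem_range.1 hj)) e
        rw [he'] at he
        exact hn e' he
      have h2 := (Filter.eventually_all_finset _).2 h1
      filter_upwards [h2] with F hF
      exact ⟨rep n F, fun j hj => hF j (Finset.mem_range.2 (Nat.lt_succ_of_le hj))⟩)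
  obtain ⟨X, hX, hφ⟩ := h m
  obtain ⟨l, e, rfl⟩ := exists_sec hX
  exact (hst l m).2 (hm l) ⟨e, hφ⟩

/-- the least indices -/
theorem choice : Sigma11AC NN := by
  intro φ v h
  obtain ⟨l, hl⟩ := uniform_stage φ v h
  have hS := star_mem (Ar.stage l)
  -- `G w`: `w 0` is the least index that works for `w 1`
  let good : MM → MM → Prop := fun n e => φ.Holds (fun _ => sec NN (star (U l)) e) (cons n v)
  have hleast : ∀ n, ∃ e, good n e ∧ ∀ e', NN.lt e' e → ¬ good n e' := by
    intro n
    obtain ⟨e, he⟩ := hl n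
    have h1 : Rp (fun w => φ.Holds (fun _ => sec NN (star (U l)) (w 0)) (fun i => w (i + 1))) :=
      holds_rp hS φ (fun i => i + 1) 0
    obtain ⟨e0, he0, hmin⟩ := exists_least (h1.comp (cons n v)) ⟨e, he⟩
    exact ⟨e0, he0, fun e' he' hg => hmin e' hg he'⟩
  let Y : Set MM := {z | ∃ n x e, z = NN.pair n x ∧ NN.pair e x ∈ star (U l) ∧
    good n e ∧ ∀ e', NN.lt e' e → ¬ good n e'}
  have hY : Y ∈ NN.Sets := by
    -- variables: `0 = e`, `1 = x`, `2 = n`, `3 = z`, `i + 4 = v i`
    have h1 : Rp (fun w => w 3 = NN.pair (w 2) (w 1) ∧ NN.pair (w 0) (w 1) ∈ star (U l) ∧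
        φ.Holds (fun _ => sec NN (star (U l)) (w 0)) (fun i => w (Nat.rec 2 (fun j _ => j + 4) i)) ∧
        ∀ e', NN.lt e' (w 0) → ¬ φ.Holds (fun _ => sec NN (star (U l)) e')
          (fun i => w (Nat.rec 2 (fun j _ => j + 4) i))) := by
      refine (Rp.eq (Rt.var 3) ((Rt.var 2).pair (Rt.var 1))).and
        ((Rp.mem hS ((Rt.var 0).pair (Rt.var 1))).and ((holds_rp hS φ _ 0).and ?_))
      refine Rp.all (R := fun w => NN.lt (w 0) (w 1) →
        ¬ φ.Holds (fun _ => sec NN (star (U l)) (w 0))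
          (fun i => w (Nat.rec 2 (fun j _ => j + 4) i + 1))) ?_
      refine (Rp.lt (Rt.var 0) (Rt.var 1)).imp ?_
      exact (holds_rp hS φ (fun i => Nat.rec 2 (fun j _ => j + 4) i + 1) 0).not
    have h2 := (h1.ex.ex.ex).comp v
    have h3 : Y = {z | ∃ n x e, z = NN.pair n x ∧ NN.pair e x ∈ star (U l) ∧
        good n e ∧ ∀ e', NN.lt e' e → ¬ good n e'} := rfl
    convert h2 using 1
    rw [h3]
    ext z
    simp only [Set.mem_ofPred_eq]
    refine exists_congr fun n => exists_congr fun x => exists_congr fun e => ?_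
    have e1 : (fun i : ℕ => cons e (cons x (cons n (cons z v))) (Nat.rec 2 (fun j _ => j + 4) i)) =
        cons n v := by
      funext i
      cases i with
      | zero => rfl
      | succ i => rfl
    rw [e1]
    exact Iff.rfl
  refine ⟨Y, hY, fun n => ?_⟩
  obtain ⟨e, he, hmin⟩ := hleast n
  have h1 : sec NN Y n = sec NN (star (U l)) e := by
    ext x
    constructor
    · rintro ⟨n', x', e', h2, h3, h4, h5⟩
      have h6 : n = n' ∧ x = x' := by
        rw [ext_iff, ← Filter.eventually_congr (Filter.Eventually.of_forall fun _ => Iff.rfl)] at h2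
        have h7 : ∀ᶠ F in (D : Filter ℕ), rep n F = rep n' F ∧ rep x F = rep x' F := by
          filter_upwards [h2, rep_pair n x, rep_pair n' x'] with F a1 a2 a3
          rw [a2, a3] at a1
          exact pr_inj a1
        rw [Filter.eventually_and] at h7
        exact ⟨of_rep h7.1, of_rep h7.2⟩
      obtain ⟨rfl, rfl⟩ := h6
      have h8 : e = e' := by
        rcases lt_tri e e' with h9 | h9 | h9
        · exact absurd he (h5 e h9)
        · exact h9
        · exact absurd h4 (hmin e' h9)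
      subst h8
      exact h3
    · intro hx
      exact ⟨n, x, e, rfl, hx, he, hmin⟩
  rw [h1]
  exact he

theorem finite_choice : FiniteSigma11AC NN := by
  intro φ v h
  refine choice φ v fun n => ?_
  obtain ⟨S, hS, j, hj, hA⟩ := h n
  exact ⟨sec NN S NN.zero, sec_mem hS _, (hA _ (sec_mem hS _)).2 ⟨NN.zero, hj, rfl⟩⟩

end Pool.Agent.N636.BW
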