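import Pool.Agent.Y579.HR.Defs

/-!
The schemes `Sigma^1_1-AC_0`, `finite-Sigma^1_1-AC_0` and arithmetic Bolzano-Weierstrass, for
structures for second-order arithmetic (Henkin semantics). Structures, models of `RCA_0`,
arithmetical comprehension and arithmetical formulas are defined in
`Pool/Agent/Helper617/RM/Defs.lean`, `Pool/Agent/Helper617/RM/HLDefs.lean` and
`Pool/Agent/Y579/HR/Defs.lean`.
-/

set_option autoImplicit false

namespace Pool.Agent.N636.BW

open Pool.Agent.Helper617.RM Pool.Agent.Y579.HR

universe u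

variable (N : L2Structure.{u})

/-- `Sigma^1_1-AC`: for every arithmetical formula `φ(n, X)` with parameters, if for every `n`
there is `X` with `φ(n, X)`, then there is `Y` such that `φ(n, Y^[n])` for every `n`. -/
def Sigma11AC : Prop :=
  ∀ (φ : SForm N) (v : ℕ → N.M),
    (∀ n, ∃ X ∈ N.Sets, φ.Holds (fun _ => X) (cons n v)) →
      ∃ Y ∈ N.Sets, ∀ n, φ.Holds (fun _ => sec N Y n) (cons n v)

/-- There are nonzero finitely many `X` with `A(X)`: a nonempty finite sequence `⟨X_i⟩_{i<j}`
(coded by a set `S` of the structure, `j` being a number of the structure) lists exactly the sets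
`X` of the structure with `A(X)`. -/
def FinitelyMany (A : Set N.M → Prop) : Prop :=
  ∃ S ∈ N.Sets, ∃ j, N.lt N.zero j ∧
    ∀ X ∈ N.Sets, (A X ↔ ∃ i, N.lt i j ∧ X = sec N S i)

/-- `finite-Sigma^1_1-AC`: for every arithmetical formula `φ(n, X)` with parameters, if for every
`n` there are nonzero finitely many `X` with `φ(n, X)`, then there is `Y` such that `φ(n, Y^[n])`
for every `n`. -/
def FiniteSigma11AC : Prop :=
  ∀ (φ : SForm N) (v : ℕ → N.M),
    (∀ n, FinitelyMany N (fun X => φ.Holds (fun _ => X) (cons n v))) →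
      ∃ Y ∈ N.Sets, ∀ n, φ.Holds (fun _ => sec N Y n) (cons n v)

/-- The sets `X` and `Y` agree below `n`: `Y` is in the basic open neighbourhood of `X` given by
the first `n` values of its characteristic function. -/
def AgreeBelow (n : N.M) (X Y : Set N.M) : Prop := ∀ m, N.lt m n → (m ∈ X ↔ m ∈ Y)

/-- Arithmetic Bolzano-Weierstrass: for every arithmetical formula `φ(X)` with parameters, either
some finite sequence of sets of the structure contains every `X` with `φ(X)`, or some set `X` of
the structure is an accumulation point, that is, every basic open neighbourhood of `X` contains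
two distinct `Y` with `φ(Y)`. -/
def ABW : Prop :=
  ∀ (φ : SForm N) (v : ℕ → N.M),
    (∃ S ∈ N.Sets, ∃ j, ∀ X ∈ N.Sets, φ.Holds (fun _ => X) v → ∃ i, N.lt i j ∧ X = sec N S i) ∨
    ∃ X ∈ N.Sets, ∀ n, ∃ Y ∈ N.Sets, ∃ Y' ∈ N.Sets, Y ≠ Y' ∧
      AgreeBelow N n X Y ∧ AgreeBelow N n X Y' ∧
      φ.Holds (fun _ => Y) v ∧ φ.Holds (fun _ => Y') v

end Pool.Agent.N636.BW
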