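import Pool.Agent.N636.BW.Choice

/-!
Arithmetic Bolzano-Weierstrass fails in the model.
-/

set_option autoImplicit false

namespace Pool.Agent.N636.BW

open Encodable Filter Pool.Agent.Helper617.RM Pool.Agent.Y579.HR

theorem pair_inj' {a b c d : MM} (h : NN.pair a b = NN.pair c d) : a = c ∧ b = d := by
  rw [ext_iff] at h
  have h7 : ∀ᶠ F in (D : Filter ℕ), rep a F = rep c F ∧ rep b F = rep d F := by
    filter_upwards [h, rep_pair a b, rep_pair c d] with F a1 a2 a3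
    rw [a2, a3] at a1
    exact pr_inj a1
  rw [Filter.eventually_and] at h7
  exact ⟨of_rep h7.1, of_rep h7.2⟩

theorem zero_ne_one : NN.zero ≠ NN.one := by
  rw [← ι_zero, ← ι_one]
  intro h
  exact absurd (ι_inj h) (by norm_num)

/-- `X` codes the number `k` and a hierarchy of length `k` -/
def Good (k : MM) (X : Set MM) : Prop :=
  (∀ x, NN.pair NN.zero x ∈ X ↔ x = k) ∧ Hier k (sec NN X NN.one) ∧
    (∀ y, NN.pair NN.one y ∈ X → ∃ i x, ¬ NN.lt k i ∧ y = NN.pair i x) ∧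
    ∀ z ∈ X, ∃ x, z = NN.pair NN.zero x ∨ z = NN.pair NN.one x

/-- the set that codes `j` and the hierarchy of length `j` -/
def XX (j : ℕ) : Set MM :=
  {z | z = NN.pair NN.zero (ι j) ∨ ∃ y, y ∈ star (Join j) ∧ z = NN.pair NN.one y}

theorem XX_mem (j : ℕ) : XX j ∈ NN.Sets := by
  have h1 : Rp (fun v => v 0 = NN.pair NN.zero (ι j) ∨
      ∃ y, y ∈ star (Join j) ∧ v 0 = NN.pair NN.one y) := by
    refine (Rp.eq (Rt.var 0) ((Rt.const _).pair (Rt.const _))).or ?_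
    refine Rp.ex (R := fun v => v 0 ∈ star (Join j) ∧ v 1 = NN.pair NN.one (v 0)) ?_
    exact (Rp.mem (star_mem (ar_join j)) (Rt.var 0)).and
      (Rp.eq (Rt.var 1) ((Rt.const _).pair (Rt.var 0)))
  exact h1.comp (fun _ => pt)

theorem sec_XX (j : ℕ) : sec NN (XX j) NN.one = star (Join j) := by
  ext y
  constructor
  · rintro (h | ⟨y', hy', h⟩)
    · exact absurd (pair_inj' h).1.symm zero_ne_one
    · rw [(pair_inj' h).2]
      exact hy'
  · intro h
    exact Or.inr ⟨y, h, rfl⟩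

theorem ι_le {i j : ℕ} (h : i ≤ j) : ¬ NN.lt (ι j) (ι i) := by
  intro h1
  obtain ⟨k, hk, hk'⟩ := lt_ι h1
  have := ι_inj hk'
  omega

theorem good_XX (j : ℕ) : Good (ι j) (XX j) := by
  refine ⟨fun x => ⟨?_, ?_⟩, ?_, ?_, ?_⟩
  · rintro (h | ⟨y, _, h⟩)
    · exact (pair_inj' h).2
    · exact absurd (pair_inj' h).1 zero_ne_one
  · rintro rfl
    exact Or.inl rfl
  · rw [sec_XX]
    exact hier_join j
  · intro y hy
    have h1 : y ∈ star (Join j) := by
      rw [← sec_XX]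
      exact hy
    refine ⟨mk (fun F => fst' (rep y F)), mk (fun F => snd' (rep y F)), ?_, ?_⟩
    · intro h2
      apply false_of
      have h2' : ∀ᶠ F in (D : Filter ℕ), rep (ι j) F < rep (mk (fun F => fst' (rep y F))) F := h2
      filter_upwards [mem_star.1 h1, h2', rep_ι j, rep_mk (fun F => fst' (rep y F))]
        with F h3 h4 h5 h6
      rw [h5, h6] at h4
      obtain ⟨i, hi, z, hz, _⟩ := h3
      rw [hz, fst'_pr] at h4
      omega
    · apply of_rep
      filter_upwards [mem_star.1 h1, rep_mk (fun F => fst' (rep y F)),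
        rep_mk (fun F => snd' (rep y F)),
        rep_pair (mk (fun F => fst' (rep y F))) (mk (fun F => snd' (rep y F)))] with F h3 h4 h5 h6
      rw [h6, h4, h5]
      obtain ⟨i, _, z, hz, _⟩ := h3
      rw [hz, fst'_pr, snd'_pr]
  · rintro z (h | ⟨y, _, h⟩)
    · exact ⟨ι j, Or.inl h⟩
    · exact ⟨y, Or.inr h⟩

theorem good_sub {j : ℕ} {X X' : Set MM} (h : Good (ι j) X) (h' : Good (ι j) X') : X ⊆ X' := by
  intro z hz
  obtain ⟨x, rfl | rfl⟩ := h.2.2.2 z hz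
  · exact (h'.1 x).2 ((h.1 x).1 hz)
  · obtain ⟨i, y, hi, rfl⟩ := h.2.2.1 x hz
    have hi' : ∃ i' ≤ j, i = ι i' := by
      rcases lt_tri i (ι j) with h1 | h1 | h1
      · obtain ⟨k, hk, rfl⟩ := lt_ι h1
        exact ⟨k, hk.le, rfl⟩
      · exact ⟨j, le_rfl, h1⟩
      · exact absurd h1 hi
    obtain ⟨i', hi', rfl⟩ := hi'
    have hlt : ∀ i'' < i', NN.lt (ι i'') (ι j) := by
      intro i'' h1
      rcases lt_tri (ι i'') (ι j) with h2 | h2 | h2
      · exact h2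
      · have := ι_inj h2; omega
      · obtain ⟨k, hk, hk'⟩ := lt_ι h2
        have := ι_inj hk'
        omega
    have e1 := hier_stages h.2.1 i' hlt
    have e2 := hier_stages h'.2.1 i' hlt
    have h3 : y ∈ sec NN (sec NN X NN.one) (ι i') := hz
    rw [e1, ← e2] at h3
    exact h3

theorem good_unique {j : ℕ} {X X' : Set MM} (h : Good (ι j) X) (h' : Good (ι j) X') : X = X' :=
  Set.Subset.antisymm (good_sub h h') (good_sub h' h)

theorem good_std {k : MM} {X : Set MM} (hX : X ∈ NN.Sets) (h : Good k X) : ∃ j, k = ι j :=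
  hier_std (sec_mem hX _) h.2.1

/-- substitution of a section for the set variables -/
def sub : SForm NN → SForm NN
  | .eq s t => .eq s t
  | .lt s t => .lt s t
  | .mem t X => .mem t X
  | .memV t _ => .memV (.add (.mul (.add .one t) (.add .one t)) .one) 0
  | .neg φ => .neg (sub φ)
  | .and φ ψ => .and (sub φ) (sub ψ)
  | .all φ => .all (sub φ)

theorem holds_sub (φ : SForm NN) (Y : ℕ → Set MM) : ∀ v, (sub φ).Holds Y v ↔
    φ.Holds (fun _ => sec NN (Y 0) NN.one) v := by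
  induction φ with
  | eq s t => exact fun _ => Iff.rfl
  | lt s t => exact fun _ => Iff.rfl
  | mem t X => exact fun _ => Iff.rfl
  | memV t i => exact fun _ => Iff.rfl
  | neg φ ih => exact fun v => not_congr (ih v)
  | and φ ψ ih1 ih2 => exact fun v => and_congr (ih1 v) (ih2 v)
  | all φ ih => exact fun v => forall_congr' fun a => ih (cons a v)

theorem IsF.sub {P : (ℕ → Set MM) → (ℕ → MM) → Prop} (hP : IsF P) :
    IsF (fun Y v => P (fun _ => sec NN (Y 0) NN.one) v) := by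
  obtain ⟨φ, hφ⟩ := hP
  exact ⟨BW.sub φ, fun Y v => (holds_sub φ Y v).trans (hφ _ v)⟩

theorem isF_good : IsF (fun Y v => Good (v 0) (Y 0)) := by
  have hz : IsT (fun _ => NN.zero) := ⟨.zero, fun _ => rfl⟩
  have ho : IsT (fun _ => NN.one) := ⟨.one, fun _ => rfl⟩
  have g1 : IsF (fun Y v => ∀ x, (NN.pair NN.zero x ∈ Y 0 ↔ x = v 0)) := by
    refine IsF.all (P := fun Y v => (NN.pair NN.zero (v 0) ∈ Y 0 ↔ v 0 = v 1)) ?_
    exact (IsF.memV (hz.pair (IsT.var 0)) 0).iff (IsF.eq (IsT.var 0) (IsT.var 1))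
  have g2 : IsF (fun Y v => Hier (v 0) (sec NN (Y 0) NN.one)) := (isF_hier 0).sub
  have g3 : IsF (fun Y v => ∀ y, NN.pair NN.one y ∈ Y 0 →
      ∃ i x, ¬ NN.lt (v 0) i ∧ y = NN.pair i x) := by
    refine IsF.all (P := fun Y v => NN.pair NN.one (v 0) ∈ Y 0 →
      ∃ i x, ¬ NN.lt (v 1) i ∧ v 0 = NN.pair i x) ?_
    refine (IsF.memV (ho.pair (IsT.var 0)) 0).imp ?_
    refine IsF.ex (P := fun Y v => ∃ x, ¬ NN.lt (v 2) (v 0) ∧ v 1 = NN.pair (v 0) x) ?_
    refine IsF.ex (P := fun Y v => ¬ NN.lt (v 3) (v 1) ∧ v 2 = NN.pair (v 1) (v 0)) ?_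
    exact (IsF.lt (IsT.var 3) (IsT.var 1)).not.and
      (IsF.eq (IsT.var 2) ((IsT.var 1).pair (IsT.var 0)))
  have g4 : IsF (fun Y _ => ∀ z, z ∈ Y 0 → ∃ x, z = NN.pair NN.zero x ∨ z = NN.pair NN.one x) := by
    refine IsF.all (P := fun Y v => v 0 ∈ Y 0 →
      ∃ x, v 0 = NN.pair NN.zero x ∨ v 0 = NN.pair NN.one x) ?_
    refine (IsF.memV (IsT.var 0) 0).imp ?_
    refine IsF.ex (P := fun Y v => v 1 = NN.pair NN.zero (v 0) ∨ v 1 = NN.pair NN.one (v 0)) ?_
    exact (IsF.eq (IsT.var 1) (hz.pair (IsT.var 0))).or (IsF.eq (IsT.var 1) (ho.pair (IsT.var 0)))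
  exact g1.and (g2.and (g3.and g4))

theorem pair_ι (i j : ℕ) : NN.pair (ι i) (ι j) = ι (pr i j) := by
  apply of_rep
  filter_upwards [rep_pair (ι i) (ι j), rep_ι i, rep_ι j, rep_ι (pr i j)] with F h1 h2 h3 h4
  rw [h1, h2, h3, h4]

theorem not_abw : ¬ ABW NN := by
  intro hA
  have hF : IsF (fun Y _ => ∃ k, Good k (Y 0)) := IsF.ex (P := fun Y v => Good (v 0) (Y 0)) isF_good
  obtain ⟨φ, hφ⟩ := hF
  rcases hA φ (fun _ => pt) with ⟨S, hS, j, hj⟩ | ⟨X, _, hX⟩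
  · have h0 : IsF (fun Y v => Good (v 1) (Y 0)) := by
      have : IsF (fun Y v => ∃ a, a = v 1 ∧ Good a (Y 0)) := by
        refine IsF.ex (P := fun Y v => v 0 = v 2 ∧ Good (v 0) (Y 0)) ?_
        exact (IsF.eq (IsT.var 0) (IsT.var 2)).and isF_good
      exact this.congr fun Y v => by simp
    have h1 : Rp (fun v => ∃ i, NN.lt i j ∧ Good (v 0) (sec NN S i)) := by
      refine Rp.ex (R := fun v => NN.lt (v 0) j ∧ Good (v 1) (sec NN S (v 0))) ?_
      exact (Rp.lt (Rt.var 0) (Rt.const j)).and (h0.rp hS (k := 0))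
    obtain ⟨K, hK⟩ := bounded_std (h1.comp (fun _ => pt)) (by
      rintro k ⟨i, _, hi⟩
      exact good_std (sec_mem hS i) hi)
    obtain ⟨i, hi, hi'⟩ := hj (XX K) (XX_mem K) ((hφ _ _).2 ⟨ι K, good_XX K⟩)
    obtain ⟨m, hm, hm'⟩ := hK (ι K) ⟨i, hi, by rw [← hi']; exact good_XX K⟩
    have := ι_inj hm'
    omega
  · obtain ⟨Y, hY, Y', hY', hne, h1, h2, h3, h4⟩ := hX cM
    obtain ⟨k, hk⟩ := (hφ _ _).1 h3
    obtain ⟨k', hk'⟩ := (hφ _ _).1 h4
    obtain ⟨j, rfl⟩ := good_std hY hk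
    obtain ⟨j', rfl⟩ := good_std hY' hk'
    have hlt : NN.lt (NN.pair NN.zero (ι j)) cM := by
      rw [← ι_zero, pair_ι]
      exact cM_nonstd _
    have h5 : NN.pair NN.zero (ι j) ∈ Y' := (h2 _ hlt).1 ((h1 _ hlt).2 ((hk.1 _).2 rfl))
    have h6 := (hk'.1 _).1 h5
    rw [h6] at hk
    exact hne (good_unique hk hk')

/-- **Main theorem** -/
theorem main : ∃ N : L2Structure.{0}, IsModelRCA0 N ∧ ArithComp N ∧ Sigma11AC N ∧
    FiniteSigma11AC N ∧ ¬ ABW N :=
  ⟨NN, NN_rca, NN_aca, choice, finite_choice, not_abw⟩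

end Pool.Agent.N636.BW
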