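import Mathlib
import Pool.Agent.Y579.HR.Ar

/-!
The model: the ultrapower of the natural numbers along a nonprincipal ultrafilter on the natural
numbers, with the sections of the nonstandard extensions of the sets of the class `Ar`.
(Adapted from `Pool/Agent/Y579/HR/Mod.lean`.)
-/

set_option autoImplicit false

namespace Pool.Agent.N636.BW

open Encodable Filter Pool.Agent.Helper617.RM Pool.Agent.Y579.HR

/-- the ultrafilter -/
noncomputable def D : Ultrafilter ℕ := Filter.hyperfilter ℕ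

theorem ev_ge (n : ℕ) : ∀ᶠ F in (D : Filter ℕ), n ≤ F := by
  have h : {F : ℕ | n ≤ F}ᶜ.Finite := by
    refine (Set.finite_Iio n).subset fun x hx => ?_
    simp only [Set.mem_compl_iff, Set.mem_ofPred_eq, not_le] at hx
    exact hx
  exact Filter.hyperfilter_le_cofinite (Filter.mem_cofinite.2 h)

/-- equality along the ultrafilter -/
def repSetoid : Setoid (ℕ → ℕ) where
  r a b := ∀ᶠ F in (D : Filter ℕ), a F = b F
  iseqv := {
    refl := fun a => Filter.Eventually.of_forall fun F => rfl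
    symm := fun h => h.mono fun F hF => hF.symm
    trans := fun h h' => by
      filter_upwards [h, h'] with F h1 h2
      rw [h1, h2] }

/-- the elements of the model -/
def MM : Type := Quotient repSetoid

noncomputable def rep (m : MM) : ℕ → ℕ := Quotient.out m

def mk (r : ℕ → ℕ) : MM := Quotient.mk repSetoid r

theorem rep_mk (r : ℕ → ℕ) : ∀ᶠ F in (D : Filter ℕ), rep (mk r) F = r F :=
  Quotient.exact (Quotient.out_eq (mk r))

theorem ext_iff {m n : MM} : m = n ↔ ∀ᶠ F in (D : Filter ℕ), rep m F = rep n F := by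
  constructor
  · rintro rfl
    exact Filter.Eventually.of_forall fun F => rfl
  · intro h
    rw [← Quotient.out_eq m, ← Quotient.out_eq n]
    exact Quotient.sound h

/-- predicates of sequences of numbers which depend on finitely many entries and belong to the
class -/
def ArC (P : (ℕ → ℕ) → Prop) : Prop :=
  (∃ K : ℕ, ∀ v w : ℕ → ℕ, (∀ i, i < K → v i = w i) → (P v ↔ P w)) ∧
    ArP (fun l : List ℕ => P (fun i => l.getD i 0))

/-- functions of sequences of numbers which depend on finitely many entries and belong to the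
class -/
def ArT (t : (ℕ → ℕ) → ℕ) : Prop :=
  (∃ K : ℕ, ∀ v w : ℕ → ℕ, (∀ i, i < K → v i = w i) → t v = t w) ∧
    ArF (fun l : List ℕ => t (fun i => l.getD i 0))

/-- truth along the ultrafilter -/
def st (P : (ℕ → ℕ) → Prop) (v : ℕ → MM) : Prop :=
  ∀ᶠ F in (D : Filter ℕ), P (fun i => rep (v i) F)

theorem st_not {P : (ℕ → ℕ) → Prop} {v : ℕ → MM} : st (fun v => ¬ P v) v ↔ ¬ st P v :=
  Ultrafilter.eventually_not

theorem st_and {P Q : (ℕ → ℕ) → Prop} {v : ℕ → MM} :
    st (fun v => P v ∧ Q v) v ↔ st P v ∧ st Q v := Filter.eventually_and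

theorem cons_rep (y : MM) (v : ℕ → MM) (F : ℕ) :
    (fun i => rep (cons y v i) F) = cons (rep y F) (fun i => rep (v i) F) := by
  funext i
  cases i <;> rfl

theorem getD_cons (y : ℕ) (l : List ℕ) :
    (fun i => (y :: l).getD i 0) = cons y (fun i => l.getD i 0) := by
  funext i
  cases i with
  | zero => rfl
  | succ i => exact List.getD_cons_succ

theorem getD_range (K : ℕ) (u : ℕ → ℕ) {i : ℕ} (hi : i < K) :
    ((List.range K).map u).getD i 0 = u i := by
  rw [List.getD_eq_getElem _ _ (by simpa using hi)]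
  simp

/-- the theorem of Łoś for existential quantifiers -/
theorem st_ex {P : (ℕ → ℕ) → Prop} (_ : ArC P) {v : ℕ → MM} :
    st (fun v => ∃ y, P (cons y v)) v ↔ ∃ y, st P (cons y v) := by
  classical
  constructor
  · intro h
    refine ⟨mk (fun F => if h : ∃ y, P (cons y (fun i => rep (v i) F)) then h.choose else 0), ?_⟩
    unfold st at h ⊢
    filter_upwards [h, rep_mk (fun F => if h : ∃ y, P (cons y (fun i => rep (v i) F)) then
      h.choose else 0)] with F hF hF'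
    rw [cons_rep, hF', dif_pos hF]
    exact hF.choose_spec
  · rintro ⟨y, hy⟩
    unfold st at hy ⊢
    filter_upwards [hy] with F hF
    rw [cons_rep] at hF
    exact ⟨rep y F, hF⟩

theorem ArC.congr {P Q : (ℕ → ℕ) → Prop} (hP : ArC P) (h : ∀ v, Q v ↔ P v) : ArC Q := by
  have : Q = P := funext fun v => propext (h v)
  rw [this]
  exact hP

theorem ArC.not {P : (ℕ → ℕ) → Prop} (hP : ArC P) : ArC (fun v => ¬ P v) := by
  obtain ⟨⟨K, hK⟩, hA⟩ := hP
  exact ⟨⟨K, fun v w h => not_congr (hK v w h)⟩, hA.not⟩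

theorem ArC.and {P Q : (ℕ → ℕ) → Prop} (hP : ArC P) (hQ : ArC Q) :
    ArC (fun v => P v ∧ Q v) := by
  obtain ⟨⟨K, hK⟩, hA⟩ := hP
  obtain ⟨⟨L, hL⟩, hB⟩ := hQ
  exact ⟨⟨max K L, fun v w h => and_congr (hK v w fun i hi => h i (lt_max_of_lt_left hi))
    (hL v w fun i hi => h i (lt_max_of_lt_right hi))⟩, hA.and hB⟩

theorem ArC.ex {P : (ℕ → ℕ) → Prop} (hP : ArC P) : ArC (fun v => ∃ y, P (cons y v)) := by
  obtain ⟨⟨K, hK⟩, hA⟩ := hP
  refine ⟨⟨K, fun v w h => exists_congr fun y => hK _ _ fun i hi => ?_⟩, ?_⟩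
  · cases i with
    | zero => rfl
    | succ i => exact h i (by omega)
  · have h1 : ArP (fun x : List ℕ × ℕ => P (fun i => (x.2 :: x.1).getD i 0)) :=
      hA.comp (f := fun x : List ℕ × ℕ => x.2 :: x.1) (ArF.of_primrec
        (Primrec.list_cons.comp Primrec.snd Primrec.fst))
    refine h1.ex.congr fun l => ?_
    simp only [getD_cons]

theorem ArC.subst {P : (ℕ → ℕ) → Prop} (hP : ArC P) {g : (ℕ → ℕ) → ℕ → ℕ}
    (hg : ∀ i, ArT (fun v => g v i)) : ArC (fun v => P (g v)) := by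
  obtain ⟨⟨K, hK⟩, hA⟩ := hP
  choose L hL using fun i => (hg i).1
  refine ⟨⟨(Finset.range K).sup L, fun v w h => hK _ _ fun i hi => hL i v w fun j hj => h j ?_⟩, ?_⟩
  · exact lt_of_lt_of_le hj (Finset.le_sup (f := L) (Finset.mem_range.2 hi))
  · have h1 : ∀ K : ℕ, ArF (fun l : List ℕ => (List.range K).map (g (fun i => l.getD i 0))) := by
      intro K
      induction K with
      | zero => exact ArF.const []
      | succ K ih =>
        refine ArF.congr (ArF.prim₂ Primrec.list_append ih (ArF.prim (g := fun n : ℕ => [n])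
          (Primrec.list_cons.comp Primrec.id (Primrec.const [])) (hg K).2)) fun l => ?_
        rw [List.range_succ, List.map_append]
        rfl
    refine (hA.comp (h1 K)).congr fun l => ?_
    apply hK
    intro i hi
    rw [getD_range K _ hi]

theorem st_congr {P : (ℕ → ℕ) → Prop} (hP : ArC P) {g : (ℕ → ℕ) → ℕ → ℕ} {v w : ℕ → MM}
    (h : ∀ i, ∀ᶠ F in (D : Filter ℕ), rep (w i) F = g (fun j => rep (v j) F) i) :
    st P w ↔ st (fun v => P (g v)) v := by
  obtain ⟨⟨K, hK⟩, _⟩ := hP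
  have h1 : ∀ᶠ F in (D : Filter ℕ), ∀ i ∈ Finset.range K,
      rep (w i) F = g (fun j => rep (v j) F) i :=
    (Filter.eventually_all_finset _).2 fun i _ => h i
  unfold st
  apply Filter.eventually_congr
  filter_upwards [h1] with F hF
  exact hK _ _ fun i hi => hF i (Finset.mem_range.2 hi)

/-- new elements of the model -/
noncomputable def app (t : (ℕ → ℕ) → ℕ) (v : ℕ → MM) : MM := mk (fun F => t (fun i => rep (v i) F))

theorem rep_app (t : (ℕ → ℕ) → ℕ) (v : ℕ → MM) :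
    ∀ᶠ F in (D : Filter ℕ), rep (app t v) F = t (fun i => rep (v i) F) := rep_mk _

theorem ArT.var (i : ℕ) : ArT (fun v => v i) :=
  ⟨⟨i + 1, fun _ _ h => h i (Nat.lt_succ_self i)⟩,
    ArF.of_primrec ((Primrec.list_getD 0).comp Primrec.id (Primrec.const i))⟩

theorem ArT.const (n : ℕ) : ArT (fun _ => n) :=
  ⟨⟨0, fun _ _ _ => rfl⟩, ArF.const n⟩

theorem ArT.comp₂ {h : ℕ → ℕ → ℕ} (hh : ArF (fun x : ℕ × ℕ => h x.1 x.2)) {s t : (ℕ → ℕ) → ℕ}
    (hs : ArT s) (ht : ArT t) : ArT (fun v => h (s v) (t v)) := by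
  obtain ⟨⟨K, hK⟩, hA⟩ := hs
  obtain ⟨⟨L, hL⟩, hB⟩ := ht
  refine ⟨⟨max K L, fun v w h => ?_⟩, hh.comp (hA.pair hB)⟩
  beta_reduce
  rw [hK v w fun i hi => h i (lt_max_of_lt_left hi),
    hL v w fun i hi => h i (lt_max_of_lt_right hi)]

theorem ArT.comp₁ {h : ℕ → ℕ} (hh : ArF h) {s : (ℕ → ℕ) → ℕ}
    (hs : ArT s) : ArT (fun v => h (s v)) := by
  obtain ⟨⟨K, hK⟩, hA⟩ := hs
  refine ⟨⟨K, fun v w h => ?_⟩, hh.comp hA⟩
  beta_reduce
  rw [hK v w h]

theorem ArT.add {s t : (ℕ → ℕ) → ℕ} (hs : ArT s) (ht : ArT t) : ArT (fun v => s v + t v) :=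
  ArT.comp₂ (ArF.of_primrec Primrec.nat_add) hs ht

theorem ArT.mul {s t : (ℕ → ℕ) → ℕ} (hs : ArT s) (ht : ArT t) : ArT (fun v => s v * t v) :=
  ArT.comp₂ (ArF.of_primrec Primrec.nat_mul) hs ht

theorem ArT.pr {s t : (ℕ → ℕ) → ℕ} (hs : ArT s) (ht : ArT t) : ArT (fun v => pr (s v) (t v)) :=
  ArT.comp₂ (ArF.of_primrec primrec_pr) hs ht

theorem ArC.eq {s t : (ℕ → ℕ) → ℕ} (hs : ArT s) (ht : ArT t) : ArC (fun v => s v = t v) := by
  obtain ⟨⟨K, hK⟩, hA⟩ := hs
  obtain ⟨⟨L, hL⟩, hB⟩ := ht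
  refine ⟨⟨max K L, fun v w h => ?_⟩, ArP.eq hA hB⟩
  beta_reduce
  rw [hK v w fun i hi => h i (lt_max_of_lt_left hi),
    hL v w fun i hi => h i (lt_max_of_lt_right hi)]

theorem ArC.lt {s t : (ℕ → ℕ) → ℕ} (hs : ArT s) (ht : ArT t) : ArC (fun v => s v < t v) := by
  obtain ⟨⟨K, hK⟩, hA⟩ := hs
  obtain ⟨⟨L, hL⟩, hB⟩ := ht
  refine ⟨⟨max K L, fun v w h => ?_⟩, ArP.lt hA hB⟩
  beta_reduce
  rw [hK v w fun i hi => h i (lt_max_of_lt_left hi),
    hL v w fun i hi => h i (lt_max_of_lt_right hi)]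

theorem ArC.mem {A : Set ℕ} (hA : Ar A) {t : (ℕ → ℕ) → ℕ} (ht : ArT t) :
    ArC (fun v => t v ∈ A) := by
  obtain ⟨⟨L, hL⟩, hB⟩ := ht
  refine ⟨⟨L, fun v w h => ?_⟩, ?_⟩
  · beta_reduce
    rw [hL v w h]
  · exact ArP.comp (p := fun n : ℕ => n ∈ A) ⟨A, hA, fun n => Iff.rfl⟩ hB

/-- the number `0` of the model -/
def pt : MM := mk (fun _ => 0)

/-- the model -/
@[reducible] noncomputable def NN : L2Structure.{0} where
  M := MM
  zero := app (fun _ => 0) (fun _ => pt)
  one := app (fun _ => 1) (fun _ => pt)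
  add := fun m n => app (fun v => v 0 + v 1) (cons m (fun _ => n))
  mul := fun m n => app (fun v => v 0 * v 1) (cons m (fun _ => n))
  lt := fun m n => ∀ᶠ F in (D : Filter ℕ), rep m F < rep n F
  Sets := {X | ∃ A, Ar A ∧ ∃ p : MM, X = {z | ∀ᶠ F in (D : Filter ℕ),
    pr (rep p F) (rep z F) ∈ A}}

theorem rep_zero : ∀ᶠ F in (D : Filter ℕ), rep NN.zero F = 0 :=
  rep_app (fun _ => 0) (fun _ => pt)

theorem rep_one : ∀ᶠ F in (D : Filter ℕ), rep NN.one F = 1 :=
  rep_app (fun _ => 1) (fun _ => pt)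

theorem rep_add (m n : MM) : ∀ᶠ F in (D : Filter ℕ),
    rep (NN.add m n) F = rep m F + rep n F :=
  rep_app (fun v => v 0 + v 1) (cons m (fun _ => n))

theorem rep_mul (m n : MM) : ∀ᶠ F in (D : Filter ℕ),
    rep (NN.mul m n) F = rep m F * rep n F :=
  rep_app (fun v => v 0 * v 1) (cons m (fun _ => n))

theorem rep_pair (m n : MM) : ∀ᶠ F in (D : Filter ℕ),
    rep (NN.pair m n) F = pr (rep m F) (rep n F) := by
  filter_upwards [rep_add m n, rep_mul (NN.add m n) (NN.add m n),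
    rep_add (NN.mul (NN.add m n) (NN.add m n)) m] with F h1 h2 h3
  unfold L2Structure.pair
  rw [h3, h2, h1]
  rfl

end Pool.Agent.N636.BW
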