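import Mathlib
import Pool.Agent.N636.BW.Mod

/-!
The model satisfies `RCA₀` and arithmetical comprehension.
(Adapted from `Pool/Agent/Y579/HR/Rca.lean`.)
-/

set_option autoImplicit false

namespace Pool.Agent.N636.BW

open Encodable Filter Pool.Agent.Helper617.RM Pool.Agent.Y579.HR

/-- pairs of elements of the model -/
noncomputable def pM (m n : MM) : MM := NN.pair m n

theorem rep_pM (m n : MM) : ∀ᶠ F in (D : Filter ℕ),
    rep (pM m n) F = pr (rep m F) (rep n F) := rep_pair m n

/-- terms of the model, with a parameter -/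
def Rt (t : (ℕ → MM) → MM) : Prop :=
  ∃ t0, ArT t0 ∧ ∃ p : MM, ∀ v, ∀ᶠ F in (D : Filter ℕ),
    rep (t v) F = t0 (cons (rep p F) (fun i => rep (v i) F))

/-- relations of the model, with a parameter -/
def Rp (R : (ℕ → MM) → Prop) : Prop :=
  ∃ P, ArC P ∧ ∃ p : MM, ∀ v, R v ↔ st P (cons p v)

theorem ar_fst' : ArF fst' := ArF.of_primrec primrec_fst'
theorem ar_snd' : ArF snd' := ArF.of_primrec primrec_snd'

/-- the context with another component of the parameter -/
theorem argl : ∀ i, ArT (fun v : ℕ → ℕ => cons (fst' (v 0)) (fun i => v (i + 1)) i) := by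
  intro i
  cases i with
  | zero => exact (ArT.var 0).comp₁ ar_fst'
  | succ i => exact ArT.var (i + 1)

theorem argr : ∀ i, ArT (fun v : ℕ → ℕ => cons (snd' (v 0)) (fun i => v (i + 1)) i) := by
  intro i
  cases i with
  | zero => exact (ArT.var 0).comp₁ ar_snd'
  | succ i => exact ArT.var (i + 1)

theorem ArT.subst {t : (ℕ → ℕ) → ℕ} (ht : ArT t) {g : (ℕ → ℕ) → ℕ → ℕ}
    (hg : ∀ i, ArT (fun v => g v i)) : ArT (fun v => t (g v)) := by
  obtain ⟨⟨K, hK⟩, hA⟩ := ht
  choose L hL using fun i => (hg i).1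
  refine ⟨⟨(Finset.range K).sup L, fun v w h => hK _ _ fun i hi => hL i v w fun j hj => h j ?_⟩, ?_⟩
  · exact lt_of_lt_of_le hj (Finset.le_sup (f := L) (Finset.mem_range.2 hi))
  · have h1 : ∀ K : ℕ, ArF (fun l : List ℕ => (List.range K).map (g (fun i => l.getD i 0))) := by
      intro K
      induction K with
      | zero => exact ArF.const []
      | succ K ih =>
        refine ArF.congr (ArF.prim₂ Primrec.list_append ih (ArF.prim (g := fun n : ℕ => [n])
          (Primrec.list_cons.comp Primrec.id (Primrec.const [])) (hg K).2)) fun l => ?_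
        rw [List.range_succ, List.map_append]
        rfl
    refine (hA.comp (h1 K)).congr fun l => ?_
    apply hK
    intro i hi
    rw [getD_range K _ hi]

theorem ctxl {p q : MM} {v : ℕ → MM} {F : ℕ}
    (h4 : rep (pM p q) F = pr (rep p F) (rep q F)) :
    (cons (fst' (rep (cons (pM p q) v 0) F)) fun i => rep (cons (pM p q) v (i + 1)) F) =
      cons (rep p F) (fun i => rep (v i) F) := by
  funext i
  cases i with
  | zero =>
    change fst' (rep (pM p q) F) = rep p F
    rw [h4, fst'_pr]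
  | succ i => rfl

theorem ctxr {p q : MM} {v : ℕ → MM} {F : ℕ}
    (h4 : rep (pM p q) F = pr (rep p F) (rep q F)) :
    (cons (snd' (rep (cons (pM p q) v 0) F)) fun i => rep (cons (pM p q) v (i + 1)) F) =
      cons (rep q F) (fun i => rep (v i) F) := by
  funext i
  cases i with
  | zero =>
    change snd' (rep (pM p q) F) = rep q F
    rw [h4, snd'_pr]
  | succ i => rfl

theorem Rt.comp₂ {h : ℕ → ℕ → ℕ} (hh : ArF (fun x : ℕ × ℕ => h x.1 x.2)) {s t u : (ℕ → MM) → MM}
    (hs : Rt s) (ht : Rt t)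
    (hu : ∀ v, ∀ᶠ F in (D : Filter ℕ), rep (u v) F = h (rep (s v) F) (rep (t v) F)) :
    Rt u := by
  obtain ⟨s0, hs0, p, hp⟩ := hs
  obtain ⟨t0, ht0, q, hq⟩ := ht
  refine ⟨_, (hs0.subst argl).comp₂ hh (ht0.subst argr), pM p q, fun v => ?_⟩
  filter_upwards [hu v, hp v, hq v, rep_pM p q] with F h1 h2 h3 h4
  rw [h1, h2, h3]
  have e1 : cons (fst' (cons (rep (pM p q) F) (fun i => rep (v i) F) 0))
      (fun i => cons (rep (pM p q) F) (fun i => rep (v i) F) (i + 1)) =
      cons (rep p F) (fun i => rep (v i) F) := by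
    funext i
    cases i with
    | zero => simp only [cons, h4, fst'_pr]
    | succ i => rfl
  have e2 : cons (snd' (cons (rep (pM p q) F) (fun i => rep (v i) F) 0))
      (fun i => cons (rep (pM p q) F) (fun i => rep (v i) F) (i + 1)) =
      cons (rep q F) (fun i => rep (v i) F) := by
    funext i
    cases i with
    | zero => simp only [cons, h4, snd'_pr]
    | succ i => rfl
  rw [e1, e2]

theorem Rt.var (i : ℕ) : Rt (fun v => v i) :=
  ⟨_, ArT.var (i + 1), pt, fun v => Filter.Eventually.of_forall fun F => rfl⟩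

theorem Rt.const (m : MM) : Rt (fun _ => m) :=
  ⟨_, ArT.var 0, m, fun v => Filter.Eventually.of_forall fun F => rfl⟩

theorem Rt.add {s t : (ℕ → MM) → MM} (hs : Rt s) (ht : Rt t) : Rt (fun v => NN.add (s v) (t v)) :=
  Rt.comp₂ (h := fun a b => a + b) (ArF.of_primrec Primrec.nat_add) hs ht fun v => rep_add _ _

theorem Rt.mul {s t : (ℕ → MM) → MM} (hs : Rt s) (ht : Rt t) : Rt (fun v => NN.mul (s v) (t v)) :=
  Rt.comp₂ (h := fun a b => a * b) (ArF.of_primrec Primrec.nat_mul) hs ht fun v => rep_mul _ _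

theorem Rt.pair {s t : (ℕ → MM) → MM} (hs : Rt s) (ht : Rt t) :
    Rt (fun v => NN.pair (s v) (t v)) :=
  (((hs.add ht).mul (hs.add ht)).add hs)

theorem pair_ctx {P : (ℕ → ℕ) → Prop} (hP : ArC P) (p q : MM) (v : ℕ → MM) :
    (st P (cons p v) ↔ st (fun w => P (cons (fst' (w 0)) (fun i => w (i + 1))))
      (cons (pM p q) v)) := by
  refine st_congr hP (g := fun w => cons (fst' (w 0)) (fun i => w (i + 1))) fun i => ?_
  filter_upwards [rep_pM p q] with F h4
  cases i with
  | zero => simp only [cons, h4, fst'_pr]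
  | succ i => rfl

theorem pair_ctx' {P : (ℕ → ℕ) → Prop} (hP : ArC P) (p q : MM) (v : ℕ → MM) :
    (st P (cons q v) ↔ st (fun w => P (cons (snd' (w 0)) (fun i => w (i + 1))))
      (cons (pM p q) v)) := by
  refine st_congr hP (g := fun w => cons (snd' (w 0)) (fun i => w (i + 1))) fun i => ?_
  filter_upwards [rep_pM p q] with F h4
  cases i with
  | zero => simp only [cons, h4, snd'_pr]
  | succ i => rfl

theorem Rp.not {R : (ℕ → MM) → Prop} (hR : Rp R) : Rp (fun v => ¬ R v) := by
  obtain ⟨P, hP, p, h⟩ := hR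
  exact ⟨_, hP.not, p, fun v => by beta_reduce; rw [st_not, h]⟩

theorem Rp.and {R S : (ℕ → MM) → Prop} (hR : Rp R) (hS : Rp S) : Rp (fun v => R v ∧ S v) := by
  obtain ⟨P, hP, p, h⟩ := hR
  obtain ⟨Q, hQ, q, h'⟩ := hS
  refine ⟨_, (hP.subst argl).and (hQ.subst argr), pM p q, fun v => ?_⟩
  beta_reduce
  rw [st_and, h, h', pair_ctx hP p q v, pair_ctx' hQ p q v]

theorem Rp.congr {R S : (ℕ → MM) → Prop} (hR : Rp R) (h : ∀ v, S v ↔ R v) : Rp S := by
  have : S = R := funext fun v => propext (h v)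
  rw [this]
  exact hR

theorem Rp.or {R S : (ℕ → MM) → Prop} (hR : Rp R) (hS : Rp S) : Rp (fun v => R v ∨ S v) :=
  (hR.not.and hS.not).not.congr fun v => by tauto

theorem Rp.imp {R S : (ℕ → MM) → Prop} (hR : Rp R) (hS : Rp S) : Rp (fun v => R v → S v) :=
  (hR.and hS.not).not.congr fun v => by tauto

theorem Rp.iff {R S : (ℕ → MM) → Prop} (hR : Rp R) (hS : Rp S) : Rp (fun v => R v ↔ S v) :=
  ((hR.imp hS).and (hS.imp hR)).congr fun v => by tauto

theorem Rp.ex {R : (ℕ → MM) → Prop} (hR : Rp R) : Rp (fun v => ∃ y, R (cons y v)) := by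
  obtain ⟨P, hP, p, h⟩ := hR
  have hg : ∀ i, ArT (fun v : ℕ → ℕ => cons (v 1) (cons (v 0) (fun i => v (i + 2))) i) := by
    intro i
    match i with
    | 0 => exact ArT.var 1
    | 1 => exact ArT.var 0
    | i + 2 => exact ArT.var (i + 2)
  have hP' := hP.subst hg
  refine ⟨_, hP'.ex, p, fun v => ?_⟩
  rw [st_ex hP']
  refine exists_congr fun y => ?_
  rw [h]
  refine st_congr hP (g := fun v => cons (v 1) (cons (v 0) (fun i => v (i + 2)))) fun i => ?_
  refine Filter.Eventually.of_forall fun F => ?_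
  match i with
  | 0 => rfl
  | 1 => rfl
  | i + 2 => rfl

theorem Rp.all {R : (ℕ → MM) → Prop} (hR : Rp R) : Rp (fun v => ∀ y, R (cons y v)) :=
  hR.not.ex.not.congr fun v => by simp

theorem Rp.eq {s t : (ℕ → MM) → MM} (hs : Rt s) (ht : Rt t) : Rp (fun v => s v = t v) := by
  obtain ⟨s0, hs0, p, hp⟩ := hs
  obtain ⟨t0, ht0, q, hq⟩ := ht
  refine ⟨_, ArC.eq (hs0.subst argl) (ht0.subst argr), pM p q, fun v => ?_⟩
  beta_reduce
  rw [ext_iff]
  unfold st
  apply Filter.eventually_congr
  filter_upwards [hp v, hq v, rep_pM p q] with F h2 h3 h4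
  rw [h2, h3, ctxl h4, ctxr h4]

theorem Rp.lt {s t : (ℕ → MM) → MM} (hs : Rt s) (ht : Rt t) :
    Rp (fun v => NN.lt (s v) (t v)) := by
  obtain ⟨s0, hs0, p, hp⟩ := hs
  obtain ⟨t0, ht0, q, hq⟩ := ht
  refine ⟨_, ArC.lt (hs0.subst argl) (ht0.subst argr), pM p q, fun v => ?_⟩
  unfold st
  apply Filter.eventually_congr
  filter_upwards [hp v, hq v, rep_pM p q] with F h2 h3 h4
  rw [h2, h3, ctxl h4, ctxr h4]

theorem Rp.mem {X : Set MM} (hX : X ∈ NN.Sets) {t : (ℕ → MM) → MM} (ht : Rt t) :
    Rp (fun v => t v ∈ X) := by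
  obtain ⟨A, hA, q, rfl⟩ := hX
  obtain ⟨t0, ht0, p, hp⟩ := ht
  refine ⟨fun w => pr (snd' (w 0)) (t0 (cons (fst' (w 0)) (fun i => w (i + 1)))) ∈ A,
    ArC.mem hA (((ArT.var 0).comp₁ ar_snd').pr (ht0.subst argl)), pM p q, fun v => ?_⟩
  beta_reduce
  rw [Set.mem_ofPred_eq]
  unfold st
  apply Filter.eventually_congr
  filter_upwards [hp v, rep_pM p q] with F h2 h4
  rw [h2, ctxl h4]
  have e3 : snd' (rep (cons (pM p q) v 0) F) = rep q F := by
    change snd' (rep (pM p q) F) = rep q F
    rw [h4, snd'_pr]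
  rw [e3]

/-- comprehension for all relations of the class -/
theorem Rp.comp {R : (ℕ → MM) → Prop} (hR : Rp R) (v : ℕ → MM) :
    {n | R (cons n v)} ∈ NN.Sets := by
  obtain ⟨P, ⟨⟨K, hK⟩, hA⟩, p, h⟩ := hR
  let r : ℕ → ℕ := fun F => encode ((List.range (K + 1)).map (fun i => rep (cons p v i) F))
  let L : ℕ → List ℕ := fun x => ((decode (fst' x) : Option (List ℕ))).getD []
  have hL : Primrec L :=
    Primrec.option_getD.comp (Primrec.decode.comp primrec_fst') (Primrec.const [])
  have hB : ArP (fun x : ℕ => P (fun i => ((L x).getD 0 0 :: snd' x :: (L x).tail).getD i 0)) := by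
    refine hA.comp (f := fun x : ℕ => (L x).getD 0 0 :: snd' x :: (L x).tail) (ArF.of_primrec ?_)
    exact Primrec.list_cons.comp ((Primrec.list_getD 0).comp hL (Primrec.const 0))
      (Primrec.list_cons.comp primrec_snd' (Primrec.list_tail.comp hL))
  obtain ⟨B, hB, hB'⟩ := hB
  refine ⟨B, hB, mk r, ?_⟩
  ext n
  rw [Set.mem_ofPred_eq, Set.mem_ofPred_eq, h]
  unfold st
  apply Filter.eventually_congr
  filter_upwards [rep_mk r] with F hF
  have h1 := hB' (pr (rep (mk r) F) (rep n F))
  rw [Encodable.encode_nat] at h1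
  rw [← h1, hF]
  apply hK
  have h2 : L (pr (r F) (rep n F)) = (List.range (K + 1)).map (fun i => rep (cons p v i) F) := by
    simp only [L, fst'_pr, r, encodek, Option.getD_some]
  intro i hi
  rw [h2, snd'_pr]
  match i with
  | 0 =>
    rw [List.getD_cons_zero, getD_range (K + 1) _ (by omega)]
    rfl
  | 1 => rfl
  | i + 2 =>
    rw [List.getD_cons_succ, List.getD_cons_succ, List.range_succ_eq_map, List.map_cons,
      List.tail_cons, List.map_map, getD_range K _ (by omega)]
    rfl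

/-- every nonempty set of the model has a least element -/
theorem exists_least {X : Set MM} (hX : X ∈ NN.Sets) (hne : X.Nonempty) :
    ∃ m ∈ X, ∀ n ∈ X, ¬ NN.lt n m := by
  obtain ⟨A, hA, p, rfl⟩ := hX
  obtain ⟨z, hz⟩ := hne
  let t : (ℕ → ℕ) → ℕ := fun v => sInf {y | pr (v 0) y ∈ A}
  refine ⟨app t (fun _ => p), ?_, ?_⟩
  · rw [Set.mem_ofPred_eq] at hz ⊢
    filter_upwards [hz, rep_app t (fun _ => p)] with F h1 h2
    rw [h2]
    have h3 : sInf {y | pr (rep p F) y ∈ A} ∈ {y | pr (rep p F) y ∈ A} := Nat.sInf_mem ⟨_, h1⟩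
    exact h3
  · intro n hn hlt
    rw [Set.mem_ofPred_eq] at hn
    have h0 : ∀ᶠ F in (D : Filter ℕ), False := by
      have hlt' : ∀ᶠ F in (D : Filter ℕ), rep n F < rep (app t (fun _ => p)) F := hlt
      filter_upwards [hn, hlt', rep_app t (fun _ => p)] with F h1 h2 h3
      rw [h3] at h2
      exact Nat.notMem_of_lt_sInf h2 h1
    exact h0.exists.elim fun _ h => h

theorem Rt.term (t : Term NN) : Rt (fun v => t.val v) := by
  induction t with
  | var i => exact Rt.var i
  | const a => exact Rt.const a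
  | zero => exact Rt.const NN.zero
  | one => exact Rt.const NN.one
  | add s t hs ht => exact hs.add ht
  | mul s t hs ht => exact hs.mul ht

theorem Rp.delta0 (φ : Delta0 NN) : Rp (fun v => φ.Holds v) := by
  induction φ with
  | eq s t => exact Rp.eq (Rt.term s) (Rt.term t)
  | lt s t => exact Rp.lt (Rt.term s) (Rt.term t)
  | mem t X => exact Rp.mem X.2 (Rt.term t)
  | neg φ ih => exact ih.not
  | and φ ψ ih1 ih2 => exact ih1.and ih2
  | ball t φ ih =>
    have h1 : Rp (fun v : ℕ → MM => NN.lt (v 0) (t.val (fun i => v (i + 1)))) := by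
      obtain ⟨t0, ht0, p, hp⟩ := Rt.term t
      refine Rp.lt (Rt.var 0) ⟨fun w => t0 (cons (w 0) (fun i => w (i + 2))), ?_, p, fun v => ?_⟩
      · refine ht0.subst (g := fun w => cons (w 0) (fun i => w (i + 2))) fun i => ?_
        cases i with
        | zero => exact ArT.var 0
        | succ i => exact ArT.var (i + 2)
      · exact hp _
    exact (h1.imp ih).all

theorem Rp.aform (φ : AForm NN) : Rp (fun v => φ.Holds v) := by
  induction φ with
  | eq s t => exact Rp.eq (Rt.term s) (Rt.term t)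
  | lt s t => exact Rp.lt (Rt.term s) (Rt.term t)
  | mem t X => exact Rp.mem X.2 (Rt.term t)
  | neg φ ih => exact ih.not
  | and φ ψ ih1 ih2 => exact ih1.and ih2
  | all φ ih => exact ih.all

theorem NN_aca : ArithComp NN := fun φ v => (Rp.aform φ).comp v

/-- elementary statements about finitely many elements of the model -/
theorem of_rep {m n : MM} (h : ∀ᶠ F in (D : Filter ℕ), rep m F = rep n F) : m = n :=
  ext_iff.2 h

/-- predecessor in the model -/
theorem exists_pred {m : MM} (h : m ≠ NN.zero) : ∃ n, m = NN.add n NN.one := by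
  refine ⟨app (fun v => (v 0).pred) (fun _ => m), of_rep ?_⟩
  have h2 : ∀ᶠ F in (D : Filter ℕ), rep m F ≠ 0 := by
    have h3 : ¬ ∀ᶠ F in (D : Filter ℕ), rep m F = 0 := by
      intro h3
      apply h
      apply of_rep
      filter_upwards [h3, rep_zero] with F h4 h5
      rw [h4, h5]
    exact Ultrafilter.eventually_not.2 h3
  filter_upwards [rep_add (app (fun v => (v 0).pred) (fun _ => m)) NN.one, rep_one,
    rep_app (fun v => (v 0).pred) (fun _ => m), h2] with F h4 h5 h6 h7
  rw [h4, h5, h6]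
  exact (Nat.succ_pred_eq_of_ne_zero h7).symm

theorem lt_succ_iff' {m n : MM} : NN.lt m (NN.add n NN.one) ↔ NN.lt m n ∨ m = n := by
  rw [ext_iff]
  have h1 : NN.lt m (NN.add n NN.one) ↔ ∀ᶠ F in (D : Filter ℕ),
      rep m F < rep n F ∨ rep m F = rep n F := by
    change (∀ᶠ F in (D : Filter ℕ), rep m F < rep (NN.add n NN.one) F) ↔ _
    apply Filter.eventually_congr
    filter_upwards [rep_add n NN.one, rep_one] with F h2 h3
    rw [h2, h3]
    omega
  rw [h1, Ultrafilter.eventually_or]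

theorem induction' {R : (ℕ → MM) → Prop} (hR : Rp R) (v : ℕ → MM) (h0 : R (cons NN.zero v))
    (hs : ∀ n, R (cons n v) → R (cons (NN.add n NN.one) v)) : ∀ n, R (cons n v) := by
  by_contra hno
  push Not at hno
  obtain ⟨n, hn⟩ := hno
  obtain ⟨m, hm, hmin⟩ := exists_least (hR.not.comp v) ⟨n, hn⟩
  have hm' : ¬ R (cons m v) := hm
  have hne : m ≠ NN.zero := by
    rintro rfl
    exact hm' h0
  obtain ⟨k, rfl⟩ := exists_pred hne
  have hk : R (cons k v) := by
    by_contra hk
    exact hmin k hk (lt_succ_iff'.2 (Or.inr rfl))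
  exact hm' (hs k hk)

instance NN_rca : IsModelRCA0 NN where
  ax_succ_ne_zero n h := by
    have h1 := ext_iff.1 h
    have h0 : ∀ᶠ F in (D : Filter ℕ), False := by
      filter_upwards [h1, rep_add n NN.one, rep_one, rep_zero] with F h2 h3 h4 h5
      rw [h3, h4, h5] at h2
      exact Nat.succ_ne_zero _ h2
    exact h0.exists.elim fun _ h => h
  ax_succ_inj m n h := by
    apply of_rep
    filter_upwards [ext_iff.1 h, rep_add m NN.one, rep_add n NN.one, rep_one] with F h1 h2 h3 h4
    rw [h2, h3] at h1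
    omega
  ax_add_zero m := by
    apply of_rep
    filter_upwards [rep_add m NN.zero, rep_zero] with F h1 h2
    rw [h1, h2]
    rfl
  ax_add_succ m n := by
    apply of_rep
    filter_upwards [rep_add m (NN.add n NN.one), rep_add n NN.one, rep_add (NN.add m n) NN.one,
      rep_add m n] with F h1 h2 h3 h4
    rw [h1, h2, h3, h4]
    omega
  ax_mul_zero m := by
    apply of_rep
    filter_upwards [rep_mul m NN.zero, rep_zero] with F h1 h2
    rw [h1, h2]
    rfl
  ax_mul_succ m n := by
    apply of_rep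
    filter_upwards [rep_mul m (NN.add n NN.one), rep_add n NN.one, rep_add (NN.mul m n) m,
      rep_mul m n, rep_one] with F h1 h2 h3 h4 h5
    rw [h1, h2, h3, h4, h5]
    ring
  ax_not_lt_zero m h := by
    have h' : ∀ᶠ F in (D : Filter ℕ), rep m F < rep NN.zero F := h
    have h0 : ∀ᶠ F in (D : Filter ℕ), False := by
      filter_upwards [h', rep_zero] with F h2 h3
      rw [h3] at h2
      exact Nat.not_lt_zero _ h2
    exact h0.exists.elim fun _ h => h
  ax_lt_succ m n := lt_succ_iff'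
  sigma1_induction θ v h0 hs n := by
    have hR : Rp (fun w => ∃ k, θ.Holds (cons k w)) := (Rp.delta0 θ).ex
    exact induction' hR v h0 hs n
  delta1_comprehension θ _ v _ := by
    have hR : Rp (fun w => ∃ k, θ.Holds (cons k w)) := (Rp.delta0 θ).ex
    exact hR.comp v

end Pool.Agent.N636.BW
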