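import Mathlib
import Pool.Agent.N636.BW.Rca
import Pool.Agent.N636.BW.Defs

/-!
Standard elements of the model, and the hierarchies that belong to the model.
(Adapted from `Pool/Agent/Y579/HR/Std.lean` and `Pool/Agent/Y579/HR/Fail.lean`.)
-/

set_option autoImplicit false

namespace Pool.Agent.N636.BW

open Encodable Filter Pool.Agent.Helper617.RM Pool.Agent.Y579.HR

/-- the standard elements -/
noncomputable def ι (n : ℕ) : MM := app (fun _ => n) (fun _ => pt)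

theorem rep_ι (n : ℕ) : ∀ᶠ F in (D : Filter ℕ), rep (ι n) F = n :=
  rep_app (fun _ => n) (fun _ => pt)

theorem ι_zero : ι 0 = NN.zero := rfl

theorem ι_succ (n : ℕ) : ι (n + 1) = NN.add (ι n) NN.one := by
  apply of_rep
  filter_upwards [rep_ι (n + 1), rep_ι n, rep_add (ι n) NN.one, rep_one] with F h1 h2 h3 h4
  rw [h1, h3, h2, h4]

theorem ι_one : ι 1 = NN.one := rfl

theorem false_of {p : Prop} (h : ∀ᶠ _ in (D : Filter ℕ), p) : p := h.exists.elim fun _ h => h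

theorem ι_inj {m n : ℕ} (h : ι m = ι n) : m = n := by
  apply false_of
  filter_upwards [ext_iff.1 h, rep_ι m, rep_ι n] with F h1 h2 h3
  rw [h2, h3] at h1
  exact h1

theorem lt_ι {m : MM} {k : ℕ} (h : NN.lt m (ι k)) : ∃ j < k, m = ι j := by
  induction k with
  | zero => exact absurd h (IsModelRCA0.ax_not_lt_zero (N := NN) m)
  | succ k ih =>
    rw [ι_succ] at h
    rcases lt_succ_iff'.1 h with h | h
    · obtain ⟨j, hj, rfl⟩ := ih h
      exact ⟨j, by omega, rfl⟩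
    · exact ⟨k, by omega, h⟩

theorem lt_tri (m n : MM) : NN.lt m n ∨ m = n ∨ NN.lt n m := by
  rw [ext_iff]
  change (∀ᶠ F in (D : Filter ℕ), rep m F < rep n F) ∨
    (∀ᶠ F in (D : Filter ℕ), rep m F = rep n F) ∨
    (∀ᶠ F in (D : Filter ℕ), rep n F < rep m F)
  rw [← Ultrafilter.eventually_or, ← Ultrafilter.eventually_or]
  exact Filter.Eventually.of_forall fun F => by omega

theorem lt_irrefl' (m : MM) : ¬ NN.lt m m := by
  intro h
  apply false_of
  have h' : ∀ᶠ F in (D : Filter ℕ), rep m F < rep m F := h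
  filter_upwards [h'] with F h1
  exact lt_irrefl _ h1

theorem lt_trans' {m n k : MM} (h : NN.lt m n) (h' : NN.lt n k) : NN.lt m k := by
  have h1 : ∀ᶠ F in (D : Filter ℕ), rep m F < rep n F := h
  have h2 : ∀ᶠ F in (D : Filter ℕ), rep n F < rep k F := h'
  change ∀ᶠ F in (D : Filter ℕ), rep m F < rep k F
  filter_upwards [h1, h2] with F h3 h4
  exact lt_trans h3 h4

theorem nonstd {m : MM} (h : ∀ k, m ≠ ι k) (k : ℕ) : NN.lt (ι k) m := by
  rcases lt_tri (ι k) m with h1 | h1 | h1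
  · exact h1
  · exact absurd h1.symm (h k)
  · obtain ⟨j, _, hj⟩ := lt_ι h1
    exact absurd hj (h j)

/-- a nonstandard element -/
noncomputable def cM : MM := mk (fun F => F)

theorem cM_nonstd (k : ℕ) : NN.lt (ι k) cM := by
  change ∀ᶠ F in (D : Filter ℕ), rep (ι k) F < rep cM F
  filter_upwards [rep_ι k, rep_mk (fun F => F), ev_ge (k + 1)] with F h1 h2 h3
  rw [h1]
  unfold cM
  rw [h2]
  omega

/-- the set of the model given by a set of natural numbers -/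
def star (A : Set ℕ) : Set NN.M := {z | ∀ᶠ F in (D : Filter ℕ), rep z F ∈ A}

theorem mem_star {A : Set ℕ} {z : NN.M} :
    z ∈ star A ↔ ∀ᶠ F in (D : Filter ℕ), rep z F ∈ A := Iff.rfl

theorem star_mem {A : Set ℕ} (hA : Ar A) : star A ∈ NN.Sets := by
  refine ⟨{x | snd' x ∈ A}, hA.comp primrec_snd', pt, ?_⟩
  ext z
  rw [mem_star, Set.mem_ofPred_eq]
  apply Filter.eventually_congr
  refine Filter.Eventually.of_forall fun F => ?_
  rw [Set.mem_ofPred_eq, snd'_pr]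

theorem pair_mem_star {A : Set ℕ} {x y : NN.M} : NN.pair x y ∈ star A ↔
    ∀ᶠ F in (D : Filter ℕ), pr (rep x F) (rep y F) ∈ A := by
  rw [mem_star]
  apply Filter.eventually_congr
  filter_upwards [rep_pair x y] with F h
  rw [h]

theorem ιeq (k : ℕ) (x : MM) : x = ι k ↔ ∀ᶠ F in (D : Filter ℕ), rep x F = k := by
  rw [ext_iff]
  apply Filter.eventually_congr
  filter_upwards [rep_ι k] with F h
  rw [h]

theorem ArC.or {P Q : (ℕ → ℕ) → Prop} (hP : ArC P) (hQ : ArC Q) :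
    ArC (fun v => P v ∨ Q v) := (hP.not.and hQ.not).not.congr fun v => by tauto

/-- the inner part of the definition of the operation -/
def Jin (Y : Set ℕ) (v : ℕ → ℕ) : Prop :=
  v 4 = pr (pr (v 3) (pr (v 2) (v 1))) (v 0) ∧
    ((v 3 = 0 ∧ pr (v 2) (v 0) ∉ Y) ∨
     (v 3 = 1 ∧ pr (v 2) (v 0) ∈ Y ∧ pr (v 1) (v 0) ∈ Y) ∨
     (v 3 = 1 + 1 ∧ ∃ y, pr (v 2) (pr (v 0) y) ∈ Y) ∨
     (v 3 = 1 + 1 + 1 ∧ ∃ a y, v 0 = pr a y ∧ pr (v 2) y ∈ Y) ∨
     (v 3 = 1 + 1 + 1 + 1 ∧ v 0 ∈ Y) ∨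
     (v 3 = 1 + 1 + 1 + 1 + 1 ∧ pr (v 2) (pr (v 1) (v 0)) ∈ Y))

theorem arC_Jin {Y : Set ℕ} (hY : Ar Y) : ArC (Jin Y) := by
  have e1 : ArC (fun v => ∃ y, pr (v 2) (pr (v 0) y) ∈ Y) :=
    ArC.ex (P := fun v => pr (v 3) (pr (v 1) (v 0)) ∈ Y)
      (ArC.mem hY ((ArT.var 3).pr ((ArT.var 1).pr (ArT.var 0))))
  have e2 : ArC (fun v => ∃ a y, v 0 = pr a y ∧ pr (v 2) y ∈ Y) := by
    refine ArC.ex (P := fun v => ∃ y, v 1 = pr (v 0) y ∧ pr (v 3) y ∈ Y) ?_
    exact ArC.ex (P := fun v => v 2 = pr (v 1) (v 0) ∧ pr (v 4) (v 0) ∈ Y)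
      ((ArC.eq (ArT.var 2) ((ArT.var 1).pr (ArT.var 0))).and
        (ArC.mem hY ((ArT.var 4).pr (ArT.var 0))))
  refine (ArC.eq (ArT.var 4) (((ArT.var 3).pr ((ArT.var 2).pr (ArT.var 1))).pr (ArT.var 0))).and ?_
  refine ((ArC.eq (ArT.var 3) (ArT.const _)).and (ArC.mem hY ((ArT.var 2).pr (ArT.var 0))).not).or ?_
  refine ((ArC.eq (ArT.var 3) (ArT.const _)).and ((ArC.mem hY ((ArT.var 2).pr (ArT.var 0))).and
    (ArC.mem hY ((ArT.var 1).pr (ArT.var 0))))).or ?_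
  refine ((ArC.eq (ArT.var 3) (ArT.const _)).and e1).or ?_
  refine ((ArC.eq (ArT.var 3) (ArT.const _)).and e2).or ?_
  refine ((ArC.eq (ArT.var 3) (ArT.const _)).and (ArC.mem hY (ArT.var 0))).or ?_
  exact ((ArC.eq (ArT.var 3) (ArT.const _)).and
    (ArC.mem hY ((ArT.var 2).pr ((ArT.var 1).pr (ArT.var 0)))))

/-- the operation of the model agrees with the standard one -/
theorem JN_star {Y : Set ℕ} (hY : Ar Y) : JN NN (star Y) = star (J Y) := by
  ext x
  have h1 : x ∈ star (J Y) ↔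
      st (fun v => ∃ t, ∃ e1, ∃ e2, ∃ z, Jin Y (cons z (cons e2 (cons e1 (cons t v)))))
        (fun _ => x) := by
    rw [mem_star]
    exact Iff.rfl
  have a1 := arC_Jin hY
  have a2 : ArC (fun v => ∃ z, Jin Y (cons z v)) := a1.ex
  have a3 : ArC (fun v => ∃ e2, ∃ z, Jin Y (cons z (cons e2 v))) := a2.ex
  have a4 : ArC (fun v => ∃ e1, ∃ e2, ∃ z, Jin Y (cons z (cons e2 (cons e1 v)))) := a3.ex
  rw [h1, st_ex a4]
  unfold JN
  rw [Set.mem_ofPred_eq]
  refine exists_congr fun t => ?_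
  rw [st_ex a3]
  refine exists_congr fun e1 => ?_
  rw [st_ex a2]
  refine exists_congr fun e2 => ?_
  rw [st_ex a1]
  refine exists_congr fun z => ?_
  -- the atomic parts
  have b0 : x = NN.pair (NN.pair t (NN.pair e1 e2)) z ↔ ∀ᶠ F in (D : Filter ℕ),
      rep x F = pr (pr (rep t F) (pr (rep e1 F) (rep e2 F))) (rep z F) := by
    rw [ext_iff]
    apply Filter.eventually_congr
    filter_upwards [rep_pair (NN.pair t (NN.pair e1 e2)) z, rep_pair t (NN.pair e1 e2),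
      rep_pair e1 e2] with F h2 h3 h4
    rw [h2, h3, h4]
  have b1 : t = NN.zero ↔ ∀ᶠ F in (D : Filter ℕ), rep t F = 0 := ιeq 0 t
  have b2 : t = NN.one ↔ ∀ᶠ F in (D : Filter ℕ), rep t F = 1 := ιeq 1 t
  have b3 : t = NN.add NN.one NN.one ↔ ∀ᶠ F in (D : Filter ℕ), rep t F = 1 + 1 := by
    rw [← ιeq (1 + 1) t, ι_succ 1, ι_one]
  have b4 : t = NN.add (NN.add NN.one NN.one) NN.one ↔
      ∀ᶠ F in (D : Filter ℕ), rep t F = 1 + 1 + 1 := by
    rw [← ιeq (1 + 1 + 1) t, ι_succ (1 + 1), ι_succ 1, ι_one]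
  have b5 : t = NN.add (NN.add (NN.add NN.one NN.one) NN.one) NN.one ↔
      ∀ᶠ F in (D : Filter ℕ), rep t F = 1 + 1 + 1 + 1 := by
    rw [← ιeq (1 + 1 + 1 + 1) t, ι_succ (1 + 1 + 1), ι_succ (1 + 1), ι_succ 1, ι_one]
  have b6 : t = NN.add (NN.add (NN.add (NN.add NN.one NN.one) NN.one) NN.one) NN.one ↔
      ∀ᶠ F in (D : Filter ℕ), rep t F = 1 + 1 + 1 + 1 + 1 := by
    rw [← ιeq (1 + 1 + 1 + 1 + 1) t, ι_succ (1 + 1 + 1 + 1), ι_succ (1 + 1 + 1),
      ι_succ (1 + 1), ι_succ 1, ι_one]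
  have c1 : (∃ y, NN.pair e1 (NN.pair z y) ∈ star Y) ↔
      ∀ᶠ F in (D : Filter ℕ), ∃ y, pr (rep e1 F) (pr (rep z F) y) ∈ Y := by
    have := st_ex (P := fun v => pr (v 2) (pr (v 1) (v 0)) ∈ Y)
      (ArC.mem hY ((ArT.var 2).pr ((ArT.var 1).pr (ArT.var 0)))) (v := cons z (fun _ => e1))
    refine Iff.trans ?_ this.symm
    refine exists_congr fun y => ?_
    rw [pair_mem_star]
    apply Filter.eventually_congr
    filter_upwards [rep_pair z y] with F h2
    rw [h2]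
    rfl
  have c2 : (∃ a y, z = NN.pair a y ∧ NN.pair e1 y ∈ star Y) ↔
      ∀ᶠ F in (D : Filter ℕ), ∃ a y, rep z F = pr a y ∧ pr (rep e1 F) y ∈ Y := by
    have hA : ArC (fun v => v 2 = pr (v 1) (v 0) ∧ pr (v 3) (v 0) ∈ Y) :=
      (ArC.eq (ArT.var 2) ((ArT.var 1).pr (ArT.var 0))).and
        (ArC.mem hY ((ArT.var 3).pr (ArT.var 0)))
    have h2 := st_ex (P := fun v => ∃ y, v 1 = pr (v 0) y ∧ pr (v 2) y ∈ Y) hA.ex
      (v := cons z (fun _ => e1))
    refine Iff.trans ?_ h2.symm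
    refine exists_congr fun a => ?_
    have h3 := st_ex hA (v := cons a (cons z (fun _ => e1)))
    refine Iff.trans ?_ h3.symm
    refine exists_congr fun y => ?_
    rw [pair_mem_star, ext_iff, ← Filter.eventually_and]
    apply Filter.eventually_congr
    filter_upwards [rep_pair a y] with F h4
    rw [h4]
    rfl
  have c3 : NN.pair e1 (NN.pair e2 z) ∈ star Y ↔
      ∀ᶠ F in (D : Filter ℕ), pr (rep e1 F) (pr (rep e2 F) (rep z F)) ∈ Y := by
    rw [pair_mem_star]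
    apply Filter.eventually_congr
    filter_upwards [rep_pair e2 z] with F h2
    rw [h2]
  have c4 : NN.pair e1 z ∉ star Y ↔
      ∀ᶠ F in (D : Filter ℕ), pr (rep e1 F) (rep z F) ∉ Y := by
    rw [pair_mem_star, ← Ultrafilter.eventually_not]
  rw [b0, b1, b2, b3, b4, b5, b6, c1, c2, c3, c4, pair_mem_star, pair_mem_star, mem_star]
  simp only [← Filter.eventually_and, ← Ultrafilter.eventually_or]
  exact Iff.rfl

/-- every stage of the hierarchy, and the finite joins of the stages -/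
def Join (l : ℕ) : Set ℕ := {x | ∃ i, i ≤ l ∧ ∃ z, x = pr i z ∧ z ∈ U i}

theorem ar_join (l : ℕ) : Ar (Join l) := by
  have h0 : ∀ i, Ar {x | pr (fst' x) (snd' x) = x ∧ fst' x = i ∧ snd' x ∈ U i} := by
    intro i
    have h1 : Ar {x | pr (fst' x) (snd' x) = x ∧ fst' x = i} :=
      Ar.of_pred (PrimrecPred.and
        (Primrec.eq.comp (primrec_pr.comp primrec_fst' primrec_snd') Primrec.id)
        (Primrec.eq.comp primrec_fst' (Primrec.const i)))
    exact (h1.inter ((Ar.stage i).comp primrec_snd')).congr fun z => by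
      simp only [Set.mem_ofPred_eq, and_assoc]
  have h0' : ∀ i, Ar {x | ∃ z, x = pr i z ∧ z ∈ U i} := by
    intro i
    refine (h0 i).congr fun x => ?_
    constructor
    · rintro ⟨z, rfl, hz⟩
      exact ⟨by rw [fst'_pr, snd'_pr], fst'_pr _ _, by rw [snd'_pr]; exact hz⟩
    · rintro ⟨h1, h2, h3⟩
      exact ⟨snd' x, by rw [← h2]; exact h1.symm, h3⟩
  induction l with
  | zero =>
    refine (h0' 0).congr fun x => ?_
    constructor
    · rintro ⟨i, hi, h⟩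
      obtain rfl : i = 0 := by omega
      exact h
    · intro h
      exact ⟨0, le_rfl, h⟩
  | succ l ih =>
    refine ((ih.compl.inter (h0' (l + 1)).compl).compl).congr fun x => ?_
    simp only [Set.mem_ofPred_eq, not_and, not_not]
    constructor
    · rintro ⟨i, hi, h⟩ h'
      rcases Nat.lt_or_ge l i with h2 | h2
      · obtain rfl : i = l + 1 := by omega
        exact h
      · exact absurd ⟨i, h2, h⟩ h'
    · intro h
      by_cases h' : x ∈ Join l
      · obtain ⟨i, hi, h2⟩ := h'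
        exact ⟨i, by omega, h2⟩
      · exact ⟨l + 1, le_rfl, h h'⟩

theorem sec_join {l i : ℕ} (hi : i ≤ l) : sec NN (star (Join l)) (ι i) = star (U i) := by
  ext z
  change NN.pair (ι i) z ∈ star (Join l) ↔ _
  rw [pair_mem_star, mem_star]
  apply Filter.eventually_congr
  filter_upwards [rep_ι i] with F h
  rw [h]
  constructor
  · rintro ⟨i', _, z', h1, h2⟩
    obtain ⟨rfl, rfl⟩ := pr_inj h1
    exact h2
  · intro h1
    exact ⟨i, hi, _, rfl, h1⟩

/-- `X` is a hierarchy of length `l` -/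
def Hier (l : MM) (X : Set MM) : Prop :=
  (∀ x, NN.pair NN.zero x ∈ X ↔ x ∈ star (U 0)) ∧
  ∀ i, NN.lt i l → ∀ x, NN.pair (NN.add i NN.one) x ∈ X ↔ x ∈ JN NN (sec NN X i)

theorem hier_join (l : ℕ) : Hier (ι l) (star (Join l)) := by
  constructor
  · intro x
    have := sec_join (Nat.zero_le l)
    rw [← this]
    exact Iff.rfl
  · intro i hi x
    obtain ⟨j, hj, rfl⟩ := lt_ι hi
    rw [sec_join hj.le, JN_star (Ar.stage j), ← ι_succ]
    change x ∈ sec NN (star (Join l)) (ι (j + 1)) ↔ _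
    rw [sec_join hj]
    rfl

theorem hier_stages {l : MM} {X : Set MM} (h : Hier l X) (k : ℕ) (hk : ∀ i < k, NN.lt (ι i) l) :
    sec NN X (ι k) = star (U k) := by
  induction k with
  | zero =>
    ext x
    exact h.1 x
  | succ k ih =>
    have ih' := ih fun i hi => hk i (by omega)
    ext x
    have h1 := h.2 (ι k) (hk k (Nat.lt_succ_self k)) x
    rw [ih', JN_star (Ar.stage k), ← ι_succ] at h1
    exact h1

/-- the length of a hierarchy of the model is standard -/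
theorem hier_std {l : MM} {X : Set MM} (hX : X ∈ NN.Sets) (h : Hier l X) : ∃ k, l = ι k := by
  by_contra hno
  push Not at hno
  have hlt := nonstd hno
  obtain ⟨A, hA, p, rfl⟩ := hX
  -- the diagonal set
  have hB : Ar {x | pr (fst' x) (pr (fst' (snd' x)) (pr (snd' (snd' x)) (snd' (snd' x)))) ∉ A} := by
    refine (hA.comp ?_).compl
    exact primrec_pr.comp primrec_fst' (primrec_pr.comp (primrec_fst'.comp primrec_snd')
      (primrec_pr.comp (primrec_snd'.comp primrec_snd') (primrec_snd'.comp primrec_snd')))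
  obtain ⟨j, e, he⟩ := hB
  let d : ℕ → ℕ := fun P => pr 5 (pr (pr 5 (pr e P)) (j + 2))
  have hd : ∀ P, pr (d P) (d P) ∈ U (j + 2) ↔ pr P (pr (j + 2) (pr (d P) (d P))) ∉ A := by
    intro P
    have h1 : ∀ y, pr (d P) y ∈ U (j + 2) ↔ pr (pr 5 (pr e P)) (pr (j + 2) y) ∈ U (j + 1) := by
      intro y
      change pr (d P) y ∈ J (U (j + 1)) ↔ _
      rw [mem_J]
      simp
    have h2 : ∀ y, pr (pr 5 (pr e P)) y ∈ U (j + 1) ↔ pr e (pr P y) ∈ U j := by
      intro y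
      change pr (pr 5 (pr e P)) y ∈ J (U j) ↔ _
      rw [mem_J]
      simp
    rw [h1, h2, ← he]
    simp only [Set.mem_ofPred_eq, fst'_pr, snd'_pr]
  let dd : MM := app (fun v => d (v 0)) (fun _ => p)
  have hdd : ∀ᶠ F in (D : Filter ℕ), rep dd F = d (rep p F) := rep_app (fun v => d (v 0)) (fun _ => p)
  have hs := hier_stages h (j + 2) fun i _ => hlt i
  have h3 : NN.pair dd dd ∈ star (U (j + 2)) ↔
      ∀ᶠ F in (D : Filter ℕ), pr (rep p F) (pr (j + 2) (pr (d (rep p F)) (d (rep p F)))) ∉ A := by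
    rw [pair_mem_star]
    apply Filter.eventually_congr
    filter_upwards [hdd] with F hF
    rw [hF]
    exact hd _
  have h4 : NN.pair dd dd ∈ star (U (j + 2)) ↔
      ∀ᶠ F in (D : Filter ℕ), pr (rep p F) (pr (j + 2) (pr (d (rep p F)) (d (rep p F)))) ∈ A := by
    rw [← hs]
    change NN.pair (ι (j + 2)) (NN.pair dd dd) ∈ {z | ∀ᶠ F in (D : Filter ℕ),
      pr (rep p F) (rep z F) ∈ A} ↔ _
    rw [Set.mem_ofPred_eq]
    apply Filter.eventually_congr
    filter_upwards [rep_pair (ι (j + 2)) (NN.pair dd dd), rep_ι (j + 2), rep_pair dd dd, hdd]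
      with F h5 h6 h7 h8
    rw [h5, h6, h7, h8]
  rw [h3, Ultrafilter.eventually_not] at h4
  tauto

/-- relations given by formulas -/
def IsF (P : (ℕ → Set MM) → (ℕ → MM) → Prop) : Prop :=
  ∃ φ : SForm NN, ∀ Y v, φ.Holds Y v ↔ P Y v

/-- terms -/
def IsT (t : (ℕ → MM) → MM) : Prop := ∃ s : Term NN, ∀ v, s.val v = t v

theorem IsT.var (i : ℕ) : IsT (fun v => v i) := ⟨.var i, fun _ => rfl⟩
theorem IsT.const (a : MM) : IsT (fun _ => a) := ⟨.const a, fun _ => rfl⟩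
theorem IsT.add {s t : (ℕ → MM) → MM} (hs : IsT s) (ht : IsT t) :
    IsT (fun v => NN.add (s v) (t v)) := by
  obtain ⟨s', hs⟩ := hs
  obtain ⟨t', ht⟩ := ht
  exact ⟨.add s' t', fun v => by beta_reduce; rw [← hs, ← ht]; rfl⟩
theorem IsT.mul {s t : (ℕ → MM) → MM} (hs : IsT s) (ht : IsT t) :
    IsT (fun v => NN.mul (s v) (t v)) := by
  obtain ⟨s', hs⟩ := hs
  obtain ⟨t', ht⟩ := ht
  exact ⟨.mul s' t', fun v => by beta_reduce; rw [← hs, ← ht]; rfl⟩
theorem IsT.pair {s t : (ℕ → MM) → MM} (hs : IsT s) (ht : IsT t) :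
    IsT (fun v => NN.pair (s v) (t v)) := ((hs.add ht).mul (hs.add ht)).add hs

section

variable {P Q : (ℕ → Set MM) → (ℕ → MM) → Prop}

theorem IsF.congr (hP : IsF P) (h : ∀ Y v, Q Y v ↔ P Y v) : IsF Q := by
  obtain ⟨φ, hφ⟩ := hP
  exact ⟨φ, fun Y v => (hφ Y v).trans (h Y v).symm⟩

theorem IsF.not (hP : IsF P) : IsF (fun Y v => ¬ P Y v) := by
  obtain ⟨φ, hφ⟩ := hP
  exact ⟨.neg φ, fun Y v => not_congr (hφ Y v)⟩

theorem IsF.and (hP : IsF P) (hQ : IsF Q) : IsF (fun Y v => P Y v ∧ Q Y v) := by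
  obtain ⟨φ, hφ⟩ := hP
  obtain ⟨ψ, hψ⟩ := hQ
  exact ⟨.and φ ψ, fun Y v => and_congr (hφ Y v) (hψ Y v)⟩

theorem IsF.or (hP : IsF P) (hQ : IsF Q) : IsF (fun Y v => P Y v ∨ Q Y v) :=
  (hP.not.and hQ.not).not.congr fun Y v => by tauto

theorem IsF.imp (hP : IsF P) (hQ : IsF Q) : IsF (fun Y v => P Y v → Q Y v) :=
  (hP.and hQ.not).not.congr fun Y v => by tauto

theorem IsF.iff (hP : IsF P) (hQ : IsF Q) : IsF (fun Y v => P Y v ↔ Q Y v) :=
  ((hP.imp hQ).and (hQ.imp hP)).congr fun Y v => by tauto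

theorem IsF.all (hP : IsF P) : IsF (fun Y v => ∀ a, P Y (cons a v)) := by
  obtain ⟨φ, hφ⟩ := hP
  exact ⟨.all φ, fun Y v => forall_congr' fun a => hφ Y (cons a v)⟩

theorem IsF.ex (hP : IsF P) : IsF (fun Y v => ∃ a, P Y (cons a v)) :=
  hP.not.all.not.congr fun Y v => by simp

theorem IsF.eq {s t : (ℕ → MM) → MM} (hs : IsT s) (ht : IsT t) : IsF (fun _ v => s v = t v) := by
  obtain ⟨s', hs⟩ := hs
  obtain ⟨t', ht⟩ := ht
  exact ⟨.eq s' t', fun Y v => by beta_reduce; rw [← hs, ← ht]; rfl⟩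

theorem IsF.lt {s t : (ℕ → MM) → MM} (hs : IsT s) (ht : IsT t) :
    IsF (fun _ v => NN.lt (s v) (t v)) := by
  obtain ⟨s', hs⟩ := hs
  obtain ⟨t', ht⟩ := ht
  exact ⟨.lt s' t', fun Y v => by beta_reduce; rw [← hs, ← ht]; rfl⟩

theorem IsF.mem {X : Set MM} (hX : X ∈ NN.Sets) {t : (ℕ → MM) → MM} (ht : IsT t) :
    IsF (fun _ v => t v ∈ X) := by
  obtain ⟨t', ht⟩ := ht
  exact ⟨.mem t' ⟨X, hX⟩, fun Y v => by beta_reduce; rw [← ht]; rfl⟩

theorem IsF.memV {t : (ℕ → MM) → MM} (ht : IsT t) (i : ℕ) :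
    IsF (fun Y v => t v ∈ Y i) := by
  obtain ⟨t', ht⟩ := ht
  exact ⟨.memV t' i, fun Y v => by beta_reduce; rw [← ht]; rfl⟩

end

/-- being a hierarchy is given by a formula -/
theorem isF_hier (k : ℕ) : IsF (fun Y v => Hier (v k) (Y 0)) := by
  have hz : IsT (fun _ => NN.zero) := ⟨.zero, fun _ => rfl⟩
  have ho : IsT (fun _ => NN.one) := ⟨.one, fun _ => rfl⟩
  -- membership in `JN` of a section; variables `0 = x`, `1 = i`
  have hJ : IsF (fun Y v => v 0 ∈ JN NN (sec NN (Y 0) (v 1))) := by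
    have hV : ∀ {t : (ℕ → MM) → MM} {k : ℕ}, IsT t →
        IsF (fun Y v => t v ∈ sec NN (Y 0) (v k)) := by
      intro t k ht
      exact IsF.memV (t := fun v => NN.pair (v k) (t v)) ((IsT.var k).pair ht) 0
    have g1 : IsF (fun Y v => ∃ y, NN.pair (v 2) (NN.pair (v 0) y) ∈ sec NN (Y 0) (v 5)) := by
      refine IsF.ex (P := fun Y v => NN.pair (v 3) (NN.pair (v 1) (v 0)) ∈ sec NN (Y 0) (v 6)) ?_
      exact hV ((IsT.var 3).pair ((IsT.var 1).pair (IsT.var 0)))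
    have g2 : IsF (fun Y v => ∃ a y, v 0 = NN.pair a y ∧
        NN.pair (v 2) y ∈ sec NN (Y 0) (v 5)) := by
      refine IsF.ex (P := fun Y v => ∃ y, v 1 = NN.pair (v 0) y ∧
        NN.pair (v 3) y ∈ sec NN (Y 0) (v 6)) ?_
      refine IsF.ex (P := fun Y v => v 2 = NN.pair (v 1) (v 0) ∧
        NN.pair (v 4) (v 0) ∈ sec NN (Y 0) (v 7)) ?_
      exact (IsF.eq (IsT.var 2) ((IsT.var 1).pair (IsT.var 0))).and
        (hV ((IsT.var 4).pair (IsT.var 0)))
    have g3 : IsF (fun Y v =>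
        (v 4 = NN.pair (NN.pair (v 3) (NN.pair (v 2) (v 1))) (v 0) ∧
        ((v 3 = NN.zero ∧ NN.pair (v 2) (v 0) ∉ sec NN (Y 0) (v 5)) ∨
         (v 3 = NN.one ∧ NN.pair (v 2) (v 0) ∈ sec NN (Y 0) (v 5) ∧
            NN.pair (v 1) (v 0) ∈ sec NN (Y 0) (v 5)) ∨
         (v 3 = NN.add NN.one NN.one ∧
            ∃ y, NN.pair (v 2) (NN.pair (v 0) y) ∈ sec NN (Y 0) (v 5)) ∨
         (v 3 = NN.add (NN.add NN.one NN.one) NN.one ∧
            ∃ a y, v 0 = NN.pair a y ∧ NN.pair (v 2) y ∈ sec NN (Y 0) (v 5)) ∨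
         (v 3 = NN.add (NN.add (NN.add NN.one NN.one) NN.one) NN.one ∧
            v 0 ∈ sec NN (Y 0) (v 5)) ∨
         (v 3 = NN.add (NN.add (NN.add (NN.add NN.one NN.one) NN.one) NN.one) NN.one ∧
            NN.pair (v 2) (NN.pair (v 1) (v 0)) ∈ sec NN (Y 0) (v 5))))) := by
      refine (IsF.eq (IsT.var 4) (((IsT.var 3).pair ((IsT.var 2).pair (IsT.var 1))).pair
        (IsT.var 0))).and ?_
      refine ((IsF.eq (IsT.var 3) hz).and (hV ((IsT.var 2).pair (IsT.var 0))).not).or ?_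
      refine ((IsF.eq (IsT.var 3) ho).and ((hV ((IsT.var 2).pair (IsT.var 0))).and
        (hV ((IsT.var 1).pair (IsT.var 0))))).or ?_
      refine ((IsF.eq (IsT.var 3) (ho.add ho)).and g1).or ?_
      refine ((IsF.eq (IsT.var 3) ((ho.add ho).add ho)).and g2).or ?_
      refine ((IsF.eq (IsT.var 3) (((ho.add ho).add ho).add ho)).and (hV (IsT.var 0))).or ?_
      exact (IsF.eq (IsT.var 3) ((((ho.add ho).add ho).add ho).add ho)).and
        (hV ((IsT.var 2).pair ((IsT.var 1).pair (IsT.var 0))))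
    exact g3.ex.ex.ex.ex
  -- hierarchies; variable `0 = l`
  have hH : IsF (fun Y v => Hier (v 0) (Y 0)) := by
    refine IsF.and ?_ ?_
    · refine IsF.all (P := fun Y v => (NN.pair NN.zero (v 0) ∈ Y 0 ↔ v 0 ∈ star (U 0))) ?_
      exact (IsF.memV (hz.pair (IsT.var 0)) 0).iff
        (IsF.mem (star_mem (Ar.stage 0)) (IsT.var 0))
    · refine IsF.all (P := fun Y v => (NN.lt (v 0) (v 1) → ∀ x,
        (NN.pair (NN.add (v 0) NN.one) x ∈ Y 0 ↔ x ∈ JN NN (sec NN (Y 0) (v 0))))) ?_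
      refine (IsF.lt (IsT.var 0) (IsT.var 1)).imp ?_
      refine IsF.all (P := fun Y v =>
        (NN.pair (NN.add (v 1) NN.one) (v 0) ∈ Y 0 ↔ v 0 ∈ JN NN (sec NN (Y 0) (v 1)))) ?_
      exact (IsF.memV (((IsT.var 1).add ho).pair (IsT.var 0)) 0).iff hJ
  have h1 : IsF (fun Y v => ∃ a, a = v k ∧ Hier a (Y 0)) := by
    refine IsF.ex (P := fun Y v => v 0 = v (k + 1) ∧ Hier (v 0) (Y 0)) ?_
    exact (IsF.eq (IsT.var 0) (IsT.var (k + 1))).and hH
  exact h1.congr fun Y v => by simp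

/-- formulas define sets of the model -/
theorem IsF.rp {P : (ℕ → Set MM) → (ℕ → MM) → Prop} (hP : IsF P) {Y : Set MM}
    (hY : Y ∈ NN.Sets) {k : ℕ} :
    Rp (fun v => P (fun _ => sec NN Y (v k)) v) := by
  obtain ⟨φ, hφ⟩ := hP
  suffices h : ∀ k, Rp (fun v => φ.Holds (fun _ => sec NN Y (v k)) v) from
    (h k).congr fun v => (hφ _ v).symm
  clear hφ
  induction φ with
  | eq s t => exact fun _ => Rp.eq (Rt.term s) (Rt.term t)
  | lt s t => exact fun _ => Rp.lt (Rt.term s) (Rt.term t)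
  | mem t X => exact fun _ => Rp.mem X.2 (Rt.term t)
  | memV t i => exact fun k => Rp.mem hY ((Rt.var k).pair (Rt.term t))
  | neg φ ih => exact fun k => (ih k).not
  | and φ ψ ih1 ih2 => exact fun k => (ih1 k).and (ih2 k)
  | all φ ih => exact fun k => (ih (k + 1)).all

/-- an upper bound for a set of standard elements -/
theorem bounded_std {X : Set MM} (hX : X ∈ NN.Sets) (h : ∀ x ∈ X, ∃ k, x = ι k) :
    ∃ k : ℕ, ∀ x ∈ X, ∃ j < k, x = ι j := by
  have h1 : Rp (fun v => ∀ x, x ∈ X → NN.lt x (v 0)) := by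
    refine Rp.all (R := fun v => v 0 ∈ X → NN.lt (v 0) (v 1)) ?_
    exact (Rp.mem hX (Rt.var 0)).imp (Rp.lt (Rt.var 0) (Rt.var 1))
  have h2 := h1.comp (fun _ => pt)
  obtain ⟨m, hm, hmin⟩ := exists_least h2 ⟨cM, by
    intro x hx
    obtain ⟨k, rfl⟩ := h x hx
    exact cM_nonstd k⟩
  have hm' : ∀ x, x ∈ X → NN.lt x m := hm
  have hstd : ∃ k, m = ι k := by
    by_contra hno
    push Not at hno
    have hne : m ≠ NN.zero := hno 0
    obtain ⟨n, rfl⟩ := exists_pred hne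
    have hn : ∀ k, n ≠ ι k := by
      intro k hk
      exact hno (k + 1) (by rw [ι_succ, hk])
    refine hmin n ?_ (lt_succ_iff'.2 (Or.inr rfl))
    intro x hx
    obtain ⟨k, rfl⟩ := h x hx
    exact nonstd hn k
  obtain ⟨k, rfl⟩ := hstd
  exact ⟨k, fun x hx => lt_ι (hm' x hx)⟩

end Pool.Agent.N636.BW
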